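import Pool.Agent.Helper92.Perc.StripRSW
import Pool.Agent.Helper47.Perc.Sum

/-!
From the exact value of the strip probability to the one-arm exponents.
-/

set_option autoImplicit false

namespace H47Perc.DS
open Finset Filter Topology

/-- the exact value of the strip probability -/
noncomputable def Rr (n : ℕ) : ℝ :=
  3 * (3 * n + 2) / (2 * (3 * n + 1) * (4 * n + 3)) *
    ((∏ j ∈ range (2 * n + 1), (3 * (j:ℝ) + 1)) / ∏ j ∈ range (2 * n), (3 * (j:ℝ) + 2))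

/-- the product `∏_{j<m} (3j+1)/(3j+2)` -/
noncomputable def am (m : ℕ) : ℝ := ∏ j ∈ range m, (3 * (j:ℝ) + 1) / (3 * (j:ℝ) + 2)

lemma am_succ (m : ℕ) : am (m + 1) = am m * ((3 * (m:ℝ) + 1) / (3 * (m:ℝ) + 2)) :=
  prod_range_succ _ _

lemma am_pos (m : ℕ) : 0 < am m := prod_pos (fun j _ => by positivity)

lemma am_upper (m : ℕ) : am m ^ 3 * (m + 1) ≤ 1 := by
  induction m with
  | zero => simp [am]
  | succ m ih =>
    rw [am_succ, mul_pow, div_pow]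
    have h1 : (0:ℝ) < (3 * (m:ℝ) + 2) ^ 3 := by positivity
    have h2 : (3 * (m:ℝ) + 1) ^ 3 / (3 * (m:ℝ) + 2) ^ 3 * ((m:ℝ) + 2) ≤ m + 1 := by
      rw [div_mul_eq_mul_div, div_le_iff₀ h1]
      have h3 : (0:ℝ) ≤ m := by positivity
      nlinarith [mul_nonneg h3 h3]
    push_cast
    calc am m ^ 3 * ((3 * (m:ℝ) + 1) ^ 3 / (3 * (m:ℝ) + 2) ^ 3) * (m + 1 + 1)
        = am m ^ 3 * ((3 * (m:ℝ) + 1) ^ 3 / (3 * (m:ℝ) + 2) ^ 3 * (m + 2)) := by ring
      _ ≤ am m ^ 3 * (m + 1) := mul_le_mul_of_nonneg_left h2 (pow_nonneg (am_pos m).le 3)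
      _ ≤ 1 := ih

lemma am_lower (m : ℕ) (hm : 1 ≤ m) : 1 / 8 ≤ am m ^ 3 * m := by
  induction m, hm using Nat.le_induction with
  | base => rw [am_succ]; simp [am]; norm_num
  | succ m hm ih =>
    rw [am_succ, mul_pow, div_pow]
    have h1 : (0:ℝ) < (3 * (m:ℝ) + 2) ^ 3 := by positivity
    have h2 : (m:ℝ) ≤ (3 * (m:ℝ) + 1) ^ 3 / (3 * (m:ℝ) + 2) ^ 3 * ((m:ℝ) + 1) := by
      rw [div_mul_eq_mul_div, le_div_iff₀ h1]
      have h3 : (0:ℝ) ≤ m := by positivity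
      nlinarith [mul_nonneg h3 h3]
    push_cast
    calc (1:ℝ) / 8 ≤ am m ^ 3 * m := ih
      _ ≤ am m ^ 3 * ((3 * (m:ℝ) + 1) ^ 3 / (3 * (m:ℝ) + 2) ^ 3 * ((m:ℝ) + 1)) :=
          mul_le_mul_of_nonneg_left h2 (pow_nonneg (am_pos m).le 3)
      _ = _ := by ring

lemma Rr_eq (n : ℕ) : Rr n = 3 * (3 * n + 2) * (6 * n + 1) / (2 * (3 * n + 1) * (4 * n + 3)) *
    am (2 * n) := by
  unfold Rr am
  rw [prod_range_succ, prod_div_distrib]
  push_cast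
  have h : (∏ j ∈ range (2 * n), (3 * (j:ℝ) + 2)) ≠ 0 := (prod_pos (fun j _ => by positivity)).ne'
  field_simp
  ring

lemma Rr_pos (n : ℕ) : 0 < Rr n := by
  rw [Rr_eq]
  have := am_pos (2 * n)
  positivity

lemma Rr_upper (n : ℕ) : Rr n ^ 3 * (n + 1) ≤ 27 := by
  rw [Rr_eq, mul_pow]
  have h0 := am_pos (2 * n)
  have h1 := am_upper (2 * n)
  have h2 : 3 * (3 * (n:ℝ) + 2) * (6 * n + 1) / (2 * (3 * n + 1) * (4 * n + 3)) ≤ 3 := by
    rw [div_le_iff₀ (by positivity)]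
    have h3 : (0:ℝ) ≤ n := by positivity
    nlinarith [mul_nonneg h3 h3]
  have h3 : (3 * (3 * (n:ℝ) + 2) * (6 * n + 1) / (2 * (3 * n + 1) * (4 * n + 3))) ^ 3 ≤ 3 ^ 3 :=
    pow_le_pow_left₀ (by positivity) h2 3
  have h4 : am (2 * n) ^ 3 * ((n:ℝ) + 1) ≤ 1 := by
    refine le_trans ?_ h1
    apply mul_le_mul_of_nonneg_left _ (pow_nonneg h0.le 3)
    push_cast
    have h3 : (0:ℝ) ≤ n := by positivity
    linarith
  calc _ = (3 * (3 * (n:ℝ) + 2) * (6 * n + 1) / (2 * (3 * n + 1) * (4 * n + 3))) ^ 3 *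
        (am (2 * n) ^ 3 * ((n:ℝ) + 1)) := by ring
    _ ≤ 3 ^ 3 * 1 := mul_le_mul h3 h4 (by positivity) (by norm_num)
    _ = 27 := by norm_num

lemma Rr_lower (n : ℕ) (hn : 1 ≤ n) : 1 / 16 ≤ Rr n ^ 3 * n := by
  rw [Rr_eq, mul_pow]
  have h0 := am_pos (2 * n)
  have h1 := am_lower (2 * n) (by omega)
  have h2 : 1 ≤ 3 * (3 * (n:ℝ) + 2) * (6 * n + 1) / (2 * (3 * n + 1) * (4 * n + 3)) := by
    rw [le_div_iff₀ (by positivity)]
    have h3 : (0:ℝ) ≤ n := by positivity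
    nlinarith [mul_nonneg h3 h3]
  have h3 : 1 ≤ (3 * (3 * (n:ℝ) + 2) * (6 * n + 1) / (2 * (3 * n + 1) * (4 * n + 3))) ^ 3 :=
    one_le_pow₀ h2
  have h4 : 1 / 16 ≤ am (2 * n) ^ 3 * (n:ℝ) := by
    push_cast at h1
    linarith
  calc (1:ℝ) / 16 ≤ am (2 * n) ^ 3 * (n:ℝ) := h4
    _ ≤ (3 * (3 * (n:ℝ) + 2) * (6 * n + 1) / (2 * (3 * n + 1) * (4 * n + 3))) ^ 3 *
        (am (2 * n) ^ 3 * (n:ℝ)) := le_mul_of_one_le_left (by positivity) h3
    _ = _ := by ring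

/-- from bounds for the cube to bounds with real exponents -/
lemma rpow_bound_le {x y C : ℝ} (hx : 0 ≤ x) (hy : 0 < y) (hC : 0 ≤ C) (h : x ^ 3 * y ≤ C ^ 3) :
    x ≤ C * y ^ (-(1 / 3) : ℝ) := by
  have h1 : (0:ℝ) < y ^ (-(1 / 3) : ℝ) := Real.rpow_pos_of_pos hy _
  have h2 : (y ^ (-(1 / 3) : ℝ)) ^ 3 = y⁻¹ := by
    rw [← Real.rpow_natCast, ← Real.rpow_mul hy.le, ← Real.rpow_neg_one]
    norm_num
  apply le_of_pow_le_pow_left₀ (n := 3) (by norm_num) (by positivity)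
  rw [mul_pow, h2, ← div_eq_mul_inv, le_div_iff₀ hy]
  exact h

lemma le_rpow_bound {x y c : ℝ} (hx : 0 ≤ x) (hy : 0 < y) (h : c ^ 3 ≤ x ^ 3 * y) :
    c * y ^ (-(1 / 3) : ℝ) ≤ x := by
  have h1 : (0:ℝ) < y ^ (-(1 / 3) : ℝ) := Real.rpow_pos_of_pos hy _
  have h2 : (y ^ (-(1 / 3) : ℝ)) ^ 3 = y⁻¹ := by
    rw [← Real.rpow_natCast, ← Real.rpow_mul hy.le, ← Real.rpow_neg_one]
    norm_num
  apply le_of_pow_le_pow_left₀ (n := 3) (by norm_num) hx
  rw [mul_pow, h2, ← div_eq_mul_inv, div_le_iff₀ hy]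
  exact h

/-- the half-plane one-arm probability in the diagonal direction -/
theorem diag_exponent (hlim : ∀ n : ℕ, 1 ≤ n → Tendsto (fun M : ℕ => pStrip (2 * n + 1) M) atTop
    (𝓝 (Rr n))) : ∃ c C : ℝ, 0 < c ∧ 0 < C ∧ ∀ n : ℕ, 1 ≤ n →
      c * (n:ℝ) ^ (-(1 / 3) : ℝ) ≤ piH (-1) (-1) n ∧
      piH (-1) (-1) n ≤ C * (n:ℝ) ^ (-(1 / 3) : ℝ) := by
  obtain ⟨c, hc, h⟩ := strip_rsw
  have key : ∀ n : ℕ, 1 ≤ n → c * piH (-1) (-1) (n + 1) ≤ Rr n ∧
      Rr n ≤ 2 * piH (-1) (-1) (n + 1) := by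
    intro n hn
    constructor
    · apply ge_of_tendsto (hlim n hn)
      filter_upwards [eventually_ge_atTop (4 * n + 2)] with M hM
      exact (h n hn M (by exact_mod_cast hM)).1
    · apply le_of_tendsto (hlim n hn)
      filter_upwards [eventually_ge_atTop (4 * n + 2)] with M hM
      exact (h n hn M (by exact_mod_cast hM)).2
  refine ⟨1 / 8, max (3 / c) 1 * 2, by norm_num, by positivity, fun n hn => ?_⟩
  have hn0 : (0:ℝ) < n := by exact_mod_cast hn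
  constructor
  · -- lower bound
    apply le_rpow_bound (piH_nonneg _ _ _) hn0
    have h1 := (key n hn).2
    have h2 : piH (-1) (-1) (n + 1) ≤ piH (-1) (-1) n := piH_anti _ _ (by omega)
    have h3 : Rr n ≤ 2 * piH (-1) (-1) n := by linarith
    have h4 : Rr n ^ 3 ≤ (2 * piH (-1) (-1) n) ^ 3 := pow_le_pow_left₀ (Rr_pos n).le h3 3
    have h5 := Rr_lower n hn
    have h6 := mul_le_mul_of_nonneg_right h4 hn0.le
    nlinarith
  · -- upper bound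
    apply rpow_bound_le (piH_nonneg _ _ _) hn0 (by positivity)
    have hm : (1:ℝ) ≤ max (3 / c) 1 := le_max_right _ _
    have hm' : 3 / c ≤ max (3 / c) 1 := le_max_left _ _
    rcases Nat.lt_or_ge n 2 with h2 | h2
    · have : n = 1 := by omega
      subst this
      have h3 := piH_le_one (-1) (-1) 1
      have h4 := piH_nonneg (-1) (-1) 1
      have h5 : piH (-1) (-1) 1 ^ 3 ≤ 1 := pow_le_one₀ h4 h3
      have h6 : (1:ℝ) ≤ (max (3 / c) 1 * 2) ^ 3 := one_le_pow₀ (by linarith)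
      push_cast
      linarith
    · obtain ⟨m, rfl⟩ : ∃ m, n = m + 1 := ⟨n - 1, by omega⟩
      have h3 := (key m (by omega)).1
      have h5 := Rr_upper m
      have h6 : piH (-1) (-1) (m + 1) ≤ Rr m / c := by
        rw [le_div_iff₀ hc]; linarith
      have h7 := pow_le_pow_left₀ (piH_nonneg (-1) (-1) (m + 1)) h6 3
      have h8 : (3 / c) ^ 3 ≤ (max (3 / c) 1 * 2) ^ 3 :=
        pow_le_pow_left₀ (by positivity) (by linarith) 3
      refine le_trans ?_ h8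
      push_cast
      calc piH (-1) (-1) (m + 1) ^ 3 * ((m:ℝ) + 1) ≤ (Rr m / c) ^ 3 * ((m:ℝ) + 1) :=
            mul_le_mul_of_nonneg_right h7 (by positivity)
        _ = (Rr m ^ 3 * (m + 1)) / c ^ 3 := by rw [div_pow]; ring
        _ ≤ 27 / c ^ 3 := by gcongr
        _ = (3 / c) ^ 3 := by rw [div_pow]; norm_num

/-- **The one-arm exponents.** -/
theorem exponents (hlim : ∀ n : ℕ, 1 ≤ n → Tendsto (fun M : ℕ => pStrip (2 * n + 1) M) atTop
    (𝓝 (Rr n))) : ∃ c C : ℝ, 0 < c ∧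
      (∀ a b : ℝ, (a ≠ 0 ∨ b ≠ 0) → ∀ n : ℕ, 1 ≤ n →
        c * (n:ℝ) ^ (-(1 / 3) : ℝ) ≤ piH a b n ∧ piH a b n ≤ C * (n:ℝ) ^ (-(1 / 3) : ℝ)) ∧
      ∀ n : ℕ, 1 ≤ n → c * (n:ℝ) ^ (-(2 / 3) : ℝ) ≤ piQ n ∧
        piQ n ≤ C * (n:ℝ) ^ (-(2 / 3) : ℝ) := by
  have hR : SumRule := by
    intro S hS
    classical
    have h := (sum_rule (1 / 2) S hS).1
    rw [aniso_half] at h
    unfold rightS topS cn
    linarith
  obtain ⟨c1, C1, hc1, hC1, h1⟩ := arm_product hR H46.rsw_pLR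
  obtain ⟨c2, C2, hc2, hC2, h2⟩ := diag_exponent hlim
  have hd : ((-1:ℝ) ≠ 0 ∨ (-1:ℝ) ≠ 0) := Or.inl (by norm_num)
  -- the quadrant
  have hQ : ∀ n : ℕ, 1 ≤ n → c1 / C2 * (n:ℝ) ^ (-(2 / 3) : ℝ) ≤ piQ n ∧
      piQ n ≤ C1 / c2 * (n:ℝ) ^ (-(2 / 3) : ℝ) := by
    intro n hn
    have hn0 : (0:ℝ) < n := by exact_mod_cast hn
    obtain ⟨e1, e2⟩ := h1 (-1) (-1) hd n hn
    obtain ⟨e3, e4⟩ := h2 n hn
    set x := (n:ℝ) ^ (-(1 / 3) : ℝ) with hx
    have hx0 : 0 < x := Real.rpow_pos_of_pos hn0 _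
    have hxx : (n:ℝ) ^ (-(2 / 3) : ℝ) = x * x := by
      rw [hx, ← Real.rpow_add hn0]; norm_num
    have hxxx : x * x * x = (n:ℝ)⁻¹ := by
      rw [hx, ← Real.rpow_add hn0, ← Real.rpow_add hn0, ← Real.rpow_neg_one]; norm_num
    have hn1 : (n:ℝ) * (x * x * x) = 1 := by rw [hxxx]; field_simp
    have hq0 := piQ_nonneg n
    rw [hxx]
    constructor
    · -- c1 ≤ n q h ≤ n q C2 x
      have e5 : c1 ≤ n * piQ n * (C2 * x) :=
        e1.trans (mul_le_mul_of_nonneg_left e4 (by positivity))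
      have e6 : c1 * (x * x) ≤ piQ n * C2 := by
        calc c1 * (x * x) ≤ n * piQ n * (C2 * x) * (x * x) :=
              mul_le_mul_of_nonneg_right e5 (by positivity)
          _ = piQ n * C2 * (n * (x * x * x)) := by ring
          _ = piQ n * C2 := by rw [hn1, mul_one]
      rw [div_mul_eq_mul_div, div_le_iff₀ hC2]
      exact e6
    · have e5 : n * piQ n * (c2 * x) ≤ C1 :=
        le_trans (mul_le_mul_of_nonneg_left e3 (by positivity)) e2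
      have e6 : piQ n * c2 ≤ C1 * (x * x) := by
        calc piQ n * c2 = n * piQ n * (c2 * x) * (x * x) := by
              calc piQ n * c2 = piQ n * c2 * (n * (x * x * x)) := by rw [hn1, mul_one]
                _ = _ := by ring
          _ ≤ C1 * (x * x) := mul_le_mul_of_nonneg_right e5 (by positivity)
      rw [div_mul_eq_mul_div, le_div_iff₀ hc2]
      exact e6
  -- all directions
  have hH : ∀ a b : ℝ, (a ≠ 0 ∨ b ≠ 0) → ∀ n : ℕ, 1 ≤ n →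
      c1 * c2 / C1 * (n:ℝ) ^ (-(1 / 3) : ℝ) ≤ piH a b n ∧
      piH a b n ≤ C1 * C2 / c1 * (n:ℝ) ^ (-(1 / 3) : ℝ) := by
    intro a b hab n hn
    have hn0 : (0:ℝ) < n := by exact_mod_cast hn
    obtain ⟨e1, e2⟩ := h1 (-1) (-1) hd n hn
    obtain ⟨e3, e4⟩ := h2 n hn
    obtain ⟨e5, e6⟩ := h1 a b hab n hn
    set x := (n:ℝ) ^ (-(1 / 3) : ℝ) with hx
    have hx0 : 0 < x := Real.rpow_pos_of_pos hn0 _
    set t := (n:ℝ) * piQ n with ht
    have ht0 : 0 < t := by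
      rcases (mul_nonneg hn0.le (piQ_nonneg n)).eq_or_lt with h0 | h0
      · rw [ht, ← h0, zero_mul] at e1; linarith
      · exact h0
    constructor
    · -- piH a b ≥ c1 / t, t ≤ C1 / (c2 x)
      have e7 : t * (c2 * x) ≤ C1 := le_trans (mul_le_mul_of_nonneg_left e3 ht0.le) e2
      rw [div_mul_eq_mul_div, div_le_iff₀ hC1]
      have e8 : c1 * (t * (c2 * x)) ≤ t * piH a b n * C1 :=
        mul_le_mul e5 e7 (by positivity) (by linarith)
      have e9 : t * (c1 * c2 * x) ≤ t * (piH a b n * C1) := by linarith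
      exact le_of_mul_le_mul_left e9 ht0
    · have e7 : c1 ≤ t * (C2 * x) := e1.trans (mul_le_mul_of_nonneg_left e4 ht0.le)
      rw [div_mul_eq_mul_div, le_div_iff₀ hc1]
      have e8 : t * piH a b n * c1 ≤ C1 * (t * (C2 * x)) :=
        mul_le_mul e6 e7 hc1.le hC1.le
      have e9 : t * (piH a b n * c1) ≤ t * (C1 * C2 * x) := by linarith
      exact le_of_mul_le_mul_left e9 ht0
  refine ⟨min (c1 / C2) (c1 * c2 / C1), max (C1 / c2) (C1 * C2 / c1), lt_min (by positivity)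
    (by positivity), fun a b hab n hn => ?_, fun n hn => ?_⟩
  · obtain ⟨e1, e2⟩ := hH a b hab n hn
    have hx0 : 0 ≤ (n:ℝ) ^ (-(1 / 3) : ℝ) := by positivity
    exact ⟨(mul_le_mul_of_nonneg_right (min_le_right _ _) hx0).trans e1,
      e2.trans (mul_le_mul_of_nonneg_right (le_max_right _ _) hx0)⟩
  · obtain ⟨e1, e2⟩ := hQ n hn
    have hx0 : 0 ≤ (n:ℝ) ^ (-(2 / 3) : ℝ) := by positivity
    exact ⟨(mul_le_mul_of_nonneg_right (min_le_left _ _) hx0).trans e1,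
      e2.trans (mul_le_mul_of_nonneg_right (le_max_left _ _) hx0)⟩

end H47Perc.DS
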