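import Pool.Agent.Helper8.PercGlue.Strip
import Pool.Agent.Lead.IP.ValueB
import Pool.Agent.Helper92.Perc.Final
import Pool.Agent.Helper57.Perc.AnnQ

/-!
The one-arm exponents of the half-plane and of the quarter-plane, and the crossing exponents of
half annuli and quarter annuli.
-/

set_option autoImplicit false

open Finset Filter Topology

namespace H47Perc.DS

theorem pStrip_tendsto_Rr (n : ℕ) (hn : 1 ≤ n) :
    Tendsto (fun M : ℕ => pStrip (2 * n + 1) M) atTop (𝓝 (Rr n)) := by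
  have h := pStrip_tendsto n hn
  have h2 : IP.hull n (IP.P n zb) (IP.P n zb) = Rr n := by
    have h3 := IP.hull_zero n
    have h4 : IP.RR n = Rr n := by
      simp only [IP.RR, Rr]
      ring
    rw [← h4, ← h3]
    rfl
  rw [← h2]
  exact h

end H47Perc.DS

namespace H47Perc

/-- The one-arm exponents. -/
theorem one_arm_exponents : ∃ c C : ℝ, 0 < c ∧
      (∀ a b : ℝ, (a ≠ 0 ∨ b ≠ 0) → ∀ n : ℕ, 1 ≤ n →
        c * (n:ℝ) ^ (-(1 / 3) : ℝ) ≤ piH a b n ∧ piH a b n ≤ C * (n:ℝ) ^ (-(1 / 3) : ℝ)) ∧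
      ∀ n : ℕ, 1 ≤ n → c * (n:ℝ) ^ (-(2 / 3) : ℝ) ≤ piQ n ∧
        piQ n ≤ C * (n:ℝ) ^ (-(2 / 3) : ℝ) := by
  have h := DS.exponents DS.pStrip_tendsto_Rr
  exact h

lemma halfAnn_zero (a b : ℝ) (n : ℤ) : halfAnn a b 0 n = halfBox a b n := by
  classical
  unfold halfAnn halfBox
  congr 1
  funext z
  have : (0:ℤ) ≤ nrm z := by unfold nrm; exact le_max_of_le_left (abs_nonneg _)
  simp [this]

lemma quarterAnn_zero (n : ℤ) : quarterAnn 0 n = box 0 n 0 n := by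
  classical
  unfold quarterAnn
  apply filter_true_of_mem
  intro z _
  unfold nrm; exact le_max_of_le_left (abs_nonneg _)

lemma nrm_zero_iff {u : ℤ × ℤ} : nrm u = 0 ↔ u = (0, 0) := by
  unfold nrm
  constructor
  · intro h
    have h1 := le_max_left |u.1| |u.2|
    have h2 := le_max_right |u.1| |u.2|
    rw [h] at h1 h2
    have h3 : u.1 = 0 := abs_eq_zero.1 (le_antisymm h1 (abs_nonneg _))
    have h4 : u.2 = 0 := abs_eq_zero.1 (le_antisymm h2 (abs_nonneg _))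
    exact Prod.ext h3 h4
  · rintro rfl; simp

/-- crossing from distance `0` is the one-arm event -/
lemma crH_zero (a b : ℝ) (n : ℕ) : crH a b 0 n = piH a b n := by
  classical
  unfold crH piH
  rw [show ((0:ℕ):ℤ) = 0 from rfl, halfAnn_zero, Pool.Agent.Helper69.RSW.perc_half_eq,
    Pool.Agent.Helper69.RSW.perc_half_eq]
  apply Pool.Agent.Helper69.RSW.P_congr
  intro ω hω
  have hsub : ω ⊆ edgesIn (halfBox a b n) := hω
  have key : ∀ z : ℤ × ℤ, Joined ω (0, 0) z → z ∈ halfBox a b n := by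
    intro z hz
    have h0 : ((0, 0) : ℤ × ℤ) ∈ halfBox a b (n:ℤ) := by
      unfold halfBox
      rw [mem_filter]
      constructor
      · rw [mem_box]; simp
      · simp
    exact mem_of_joined hsub hz h0
  constructor
  · rintro ⟨u, z, h1, h2, h3⟩
    rw [nrm_zero_iff] at h1
    subst h1
    refine ⟨z, ?_, h3⟩
    unfold nrm at h2
    rcases max_choice |z.1| |z.2| with h | h
    · left; rw [h] at h2; exact h2
    · right; rw [h] at h2; exact h2
  · rintro ⟨z, h1, h2⟩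
    refine ⟨(0, 0), z, nrm_zero_iff.2 rfl, ?_, h2⟩
    have h3 := key z h2
    unfold halfBox at h3
    rw [mem_filter, mem_box] at h3
    have h4 : |z.1| ≤ n := abs_le.2 ⟨h3.1.1, h3.1.2.1⟩
    have h5 : |z.2| ≤ n := abs_le.2 ⟨h3.1.2.2.1, h3.1.2.2.2⟩
    unfold nrm
    rcases h1 with h1 | h1
    · rw [h1]; exact max_eq_left h5
    · rw [h1]; exact max_eq_right h4

lemma crQ_zero (n : ℕ) : crQ 0 n = piQ n := by
  classical
  unfold crQ piQ
  rw [show ((0:ℕ):ℤ) = 0 from rfl, quarterAnn_zero, Pool.Agent.Helper69.RSW.perc_half_eq,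
    Pool.Agent.Helper69.RSW.perc_half_eq]
  apply Pool.Agent.Helper69.RSW.P_congr
  intro ω hω
  have hsub : ω ⊆ edgesIn (box 0 n 0 n) := hω
  have key : ∀ z : ℤ × ℤ, Joined ω (0, 0) z → z ∈ box 0 (n:ℤ) 0 n := by
    intro z hz
    exact mem_of_joined hsub hz (by rw [mem_box]; simp)
  constructor
  · rintro ⟨u, z, h1, h2, h3⟩
    rw [nrm_zero_iff] at h1
    subst h1
    refine ⟨z, ?_, h3⟩
    have h4 := key z h3
    rw [mem_box] at h4
    unfold nrm at h2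
    rw [abs_of_nonneg h4.1, abs_of_nonneg h4.2.2.1] at h2
    rcases max_choice z.1 z.2 with h | h
    · left; rw [h] at h2; exact h2
    · right; rw [h] at h2; exact h2
  · rintro ⟨z, h1, h2⟩
    refine ⟨(0, 0), z, nrm_zero_iff.2 rfl, ?_, h2⟩
    have h4 := key z h2
    rw [mem_box] at h4
    unfold nrm
    rw [abs_of_nonneg h4.1, abs_of_nonneg h4.2.2.1]
    rcases h1 with h1 | h1
    · rw [h1]; exact max_eq_left h4.2.2.2
    · rw [h1]; exact max_eq_right h4.2.1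

/-- one-arm and crossing bounds in a uniform form -/
lemma uniform_form {α c C k K : ℝ} (hα : 0 < α) (hc : 0 < c) (hC : 0 ≤ C) (hk : 0 < k)
    (hK : 0 ≤ K)
    {g : ℕ → ℕ → ℝ} (h00 : g 0 0 = 1)
    (h0 : ∀ n : ℕ, 1 ≤ n → c * (n:ℝ) ^ (-α) ≤ g 0 n ∧ g 0 n ≤ C * (n:ℝ) ^ (-α))
    (h1 : ∀ m n : ℕ, 1 ≤ m → m ≤ n → k * ((m:ℝ) / n) ^ α ≤ g m n ∧ g m n ≤ K * ((m:ℝ) / n) ^ α)
    {m n : ℕ} (hmn : m ≤ n) :
    min 1 (min c (k / 2 ^ α)) * (((m:ℝ) + 1) / (n + 1)) ^ α ≤ g m n ∧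
      g m n ≤ max 1 (max (C * 2 ^ α) K) * (((m:ℝ) + 1) / (n + 1)) ^ α := by
  have h2α : (0:ℝ) < 2 ^ α := Real.rpow_pos_of_pos (by norm_num) _
  have hn1 : (0:ℝ) < (n:ℝ) + 1 := by positivity
  have hr : 0 ≤ (((m:ℝ) + 1) / (n + 1)) ^ α := by positivity
  rcases Nat.eq_zero_or_pos m with rfl | hm
  · rcases Nat.eq_zero_or_pos n with rfl | hn
    · rw [h00]
      simp only [Nat.cast_zero, zero_add, div_one, Real.one_rpow, mul_one]
      exact ⟨min_le_left _ _, le_max_left _ _⟩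
    · have hn0 : (0:ℝ) < n := by exact_mod_cast hn
      obtain ⟨e1, e2⟩ := h0 n hn
      have e3 : (((0:ℕ):ℝ) + 1) / ((n:ℝ) + 1) = ((n:ℝ) + 1)⁻¹ := by simp
      have e4 : (((0:ℕ):ℝ) + 1) / ((n:ℝ) + 1) ≤ (n:ℝ)⁻¹ := by
        rw [e3]; exact inv_anti₀ hn0 (by linarith)
      have e5 : ((((0:ℕ):ℝ) + 1) / ((n:ℝ) + 1)) ^ α ≤ (n:ℝ) ^ (-α) := by
        rw [Real.rpow_neg hn0.le, ← Real.inv_rpow hn0.le]
        exact Real.rpow_le_rpow (by positivity) e4 hα.le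
      have e6 : (n:ℝ) ^ (-α) ≤ 2 ^ α * ((((0:ℕ):ℝ) + 1) / ((n:ℝ) + 1)) ^ α := by
        rw [Real.rpow_neg hn0.le, ← Real.inv_rpow hn0.le, ← Real.mul_rpow (by norm_num)
          (by positivity)]
        apply Real.rpow_le_rpow (by positivity) _ hα.le
        rw [e3, ← div_eq_mul_inv, inv_eq_one_div, div_le_div_iff₀ hn0 hn1]
        have : (1:ℝ) ≤ n := by exact_mod_cast hn
        linarith
      constructor
      · calc _ ≤ c * ((((0:ℕ):ℝ) + 1) / ((n:ℝ) + 1)) ^ α :=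
              mul_le_mul_of_nonneg_right ((min_le_right _ _).trans (min_le_left _ _)) hr
          _ ≤ c * (n:ℝ) ^ (-α) := mul_le_mul_of_nonneg_left e5 hc.le
          _ ≤ _ := e1
      · calc _ ≤ C * (n:ℝ) ^ (-α) := e2
          _ ≤ C * (2 ^ α * ((((0:ℕ):ℝ) + 1) / ((n:ℝ) + 1)) ^ α) :=
              mul_le_mul_of_nonneg_left e6 hC
          _ = (C * 2 ^ α) * ((((0:ℕ):ℝ) + 1) / ((n:ℝ) + 1)) ^ α := by ring
          _ ≤ _ := mul_le_mul_of_nonneg_right ((le_max_left _ _).trans (le_max_right _ _)) hr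
  · have hn : 1 ≤ n := le_trans hm hmn
    have hm0 : (0:ℝ) < m := by exact_mod_cast hm
    have hn0 : (0:ℝ) < n := by exact_mod_cast hn
    have hm1 : (1:ℝ) ≤ m := by exact_mod_cast hm
    have hmn' : (m:ℝ) ≤ n := by exact_mod_cast hmn
    obtain ⟨e1, e2⟩ := h1 m n hm hmn
    have e3 : ((m:ℝ) / n) ^ α ≤ (((m:ℝ) + 1) / (n + 1)) ^ α := by
      apply Real.rpow_le_rpow (by positivity) _ hα.le
      rw [div_le_div_iff₀ hn0 hn1]
      nlinarith
    have e4 : (((m:ℝ) + 1) / (n + 1)) ^ α ≤ 2 ^ α * ((m:ℝ) / n) ^ α := by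
      rw [← Real.mul_rpow (by norm_num) (by positivity)]
      apply Real.rpow_le_rpow (by positivity) _ hα.le
      rw [mul_div_assoc', div_le_div_iff₀ hn1 hn0]
      nlinarith
    constructor
    · calc _ ≤ (k / 2 ^ α) * (((m:ℝ) + 1) / (n + 1)) ^ α :=
            mul_le_mul_of_nonneg_right ((min_le_right _ _).trans (min_le_right _ _)) hr
        _ ≤ (k / 2 ^ α) * (2 ^ α * ((m:ℝ) / n) ^ α) :=
            mul_le_mul_of_nonneg_left e4 (by positivity)
        _ = k * ((m:ℝ) / n) ^ α := by field_simp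
        _ ≤ _ := e1
    · calc _ ≤ K * ((m:ℝ) / n) ^ α := e2
        _ ≤ K * (((m:ℝ) + 1) / (n + 1)) ^ α := mul_le_mul_of_nonneg_left e3 hK
        _ ≤ _ := mul_le_mul_of_nonneg_right ((le_max_right _ _).trans (le_max_right _ _)) hr

lemma crH_zero_zero (a b : ℝ) : crH a b 0 0 = 1 := by
  classical
  unfold crH
  rw [Pool.Agent.Helper69.RSW.perc_half_eq, ← Pool.Agent.Helper69.RSW.P_true
    (edgesIn (halfAnn a b (0:ℕ) (0:ℕ)))]
  apply Pool.Agent.Helper69.RSW.P_congr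
  intro ω _
  simp only [iff_true]
  exact ⟨(0, 0), (0, 0), nrm_zero_iff.2 rfl, nrm_zero_iff.2 rfl, joined_refl _ _⟩

lemma crQ_zero_zero : crQ 0 0 = 1 := by
  classical
  unfold crQ
  rw [Pool.Agent.Helper69.RSW.perc_half_eq, ← Pool.Agent.Helper69.RSW.P_true
    (edgesIn (quarterAnn (0:ℕ) (0:ℕ)))]
  apply Pool.Agent.Helper69.RSW.P_congr
  intro ω _
  simp only [iff_true]
  exact ⟨(0, 0), (0, 0), nrm_zero_iff.2 rfl, nrm_zero_iff.2 rfl, joined_refl _ _⟩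

/-- **Crossing exponents** of half annuli (all directions) and of quarter annuli; `m = 0` are the
one-arm probabilities. -/
theorem crossing_all : ∃ c C : ℝ, 0 < c ∧ ∀ m n : ℕ, m ≤ n →
    (∀ a b : ℝ, (a ≠ 0 ∨ b ≠ 0) →
      c * (((m:ℝ) + 1) / (n + 1)) ^ (1 / 3 : ℝ) ≤ crH a b m n ∧
      crH a b m n ≤ C * (((m:ℝ) + 1) / (n + 1)) ^ (1 / 3 : ℝ)) ∧
    c * (((m:ℝ) + 1) / (n + 1)) ^ (2 / 3 : ℝ) ≤ crQ m n ∧
      crQ m n ≤ C * (((m:ℝ) + 1) / (n + 1)) ^ (2 / 3 : ℝ) := by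
  obtain ⟨c, C, hc, h1, h2⟩ := one_arm_exponents
  obtain ⟨k, K, hk, h3⟩ := crossing_exponents H46.rsw_pLR ⟨c, C, hc, h1, h2⟩
  have hC : 0 ≤ C := by
    obtain ⟨e1, e2⟩ := h2 1 le_rfl
    simp only [Nat.cast_one, Real.one_rpow, mul_one] at e1 e2
    linarith
  have hK : 0 ≤ K := by
    obtain ⟨e1, e2, e3⟩ := h3 1 1 le_rfl le_rfl
    simp only [Nat.cast_one, div_one, Real.one_rpow, mul_one] at e2 e3
    linarith
  set c1 := min 1 (min c (k / 2 ^ (1 / 3 : ℝ)))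
  set c2 := min 1 (min c (k / 2 ^ (2 / 3 : ℝ)))
  set C1 := max 1 (max (C * 2 ^ (1 / 3 : ℝ)) K)
  set C2 := max 1 (max (C * 2 ^ (2 / 3 : ℝ)) K)
  refine ⟨min c1 c2, max C1 C2, ?_, fun m n hmn => ⟨fun a b hab => ?_, ?_⟩⟩
  · have : (0:ℝ) < 2 ^ (1 / 3 : ℝ) := by positivity
    have : (0:ℝ) < 2 ^ (2 / 3 : ℝ) := by positivity
    exact lt_min (lt_min one_pos (lt_min hc (by positivity)))
      (lt_min one_pos (lt_min hc (by positivity)))
  · have h := uniform_form (α := 1 / 3) (by norm_num) hc hC hk hK (g := fun m n => crH a b m n)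
      (crH_zero_zero a b) (fun n hn => by rw [crH_zero]; exact h1 a b hab n hn)
      (fun m n hm hmn => (h3 m n hm hmn).1 a b hab) hmn
    have hr : 0 ≤ (((m:ℝ) + 1) / (n + 1)) ^ (1 / 3 : ℝ) := by positivity
    exact ⟨(mul_le_mul_of_nonneg_right (min_le_left _ _) hr).trans h.1,
      h.2.trans (mul_le_mul_of_nonneg_right (le_max_left _ _) hr)⟩
  · have h := uniform_form (α := 2 / 3) (by norm_num) hc hC hk hK (g := fun m n => crQ m n)
      crQ_zero_zero (fun n hn => by rw [crQ_zero]; exact h2 n hn)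
      (fun m n hm hmn => (h3 m n hm hmn).2) hmn
    have hr : 0 ≤ (((m:ℝ) + 1) / (n + 1)) ^ (2 / 3 : ℝ) := by positivity
    exact ⟨(mul_le_mul_of_nonneg_right (min_le_right _ _) hr).trans h.1,
      h.2.trans (mul_le_mul_of_nonneg_right (le_max_right _ _) hr)⟩

end H47Perc
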