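import Pool.Agent.Helper92.Perc.PercDefs
import Pool.Agent.Lead.IP.BasicB

/-!
Perc, first half: the law of the state of a half strip is given by the powers of the transfer
matrix.
-/

set_option autoImplicit false

namespace H47Perc.DS
open Finset

/-! ### elementary moves -/

lemma st_join (L : ℤ) (f : ℕ → ℤ × ℤ) (ω : Finset (Sym2 (ℤ × ℤ))) (j k : ℕ) :
    st L f (insert s(f j, f k) ω) = IP.join j k (st L f ω) := by
  unfold st
  rw [cw_insert]
  rfl

lemma st_rel {L : ℤ} {f : ℕ → ℤ × ℤ} {ω : Finset (Sym2 (ℤ × ℤ))} {x y : ℕ} :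
    st L f ω x y ↔ cw L ω (f x) (f y) := Iff.rfl

lemma st_detach {L : ℤ} {f : ℕ → ℤ × ℤ} {ω : Finset (Sym2 (ℤ × ℤ))} {k : ℕ} {v : ℤ × ℤ}
    (h1 : ∀ u, s(v, u) ∉ ω) (h2 : v.1 + v.2 ≠ L) (h3 : ∀ j, j ≠ k → f j ≠ v) :
    st L (Function.update f k v) ω = IP.detach k (st L f ω) := by
  ext x y
  rw [st_rel]
  change _ ↔ x = y ∨ (x ≠ k ∧ y ≠ k ∧ cw L ω (f x) (f y))
  by_cases hx : x = k
  · subst hx
    by_cases hy : y = x
    · subst hy
      simp only [Function.update_self, true_or, iff_true]
      exact (cw L ω).refl _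
    · rw [Function.update_self, Function.update_of_ne hy]
      constructor
      · intro h
        exact absurd (cw_isolated h1 h2 h) (h3 y hy)
      · rintro (h | ⟨h, _⟩)
        · exact absurd h.symm hy
        · exact absurd rfl h
  · by_cases hy : y = k
    · subst hy
      rw [Function.update_self, Function.update_of_ne hx]
      constructor
      · intro h
        exact absurd (cw_isolated h1 h2 (Setoid.symm' _ h)) (h3 x hx)
      · rintro (h | ⟨_, h, _⟩)
        · exact absurd h hx
        · exact absurd rfl h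
    · rw [Function.update_of_ne hx, Function.update_of_ne hy]
      constructor
      · intro h
        exact Or.inr ⟨hx, hy, h⟩
      · rintro (h | ⟨_, _, h⟩)
        · rw [h]
        · exact h

lemma st_move {L : ℤ} {f : ℕ → ℤ × ℤ} {ω : Finset (Sym2 (ℤ × ℤ))} {k : ℕ} {v : ℤ × ℤ}
    (h1 : ∀ u, s(v, u) ∉ ω) (h2 : v.1 + v.2 ≠ L) (h3 : ∀ j, f j ≠ v) :
    st L (Function.update f k v) (insert s(f k, v) ω) = st L f ω := by
  have hiso : ∀ x, cw L ω v (f x) → False := fun x h => h3 x (cw_isolated h1 h2 h)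
  have key : ∀ a b, joinG (f k) v (cw L ω) a b ↔
      cw L ω a b ∨ (cw L ω a (f k) ∧ cw L ω v b) ∨ (cw L ω a v ∧ cw L ω (f k) b) :=
    fun _ _ => Iff.rfl
  ext x y
  rw [st_rel, st_rel, cw_insert, key]
  by_cases hx : x = k
  · subst hx
    by_cases hy : y = x
    · subst hy
      simp only [Function.update_self]
      exact ⟨fun _ => (cw L ω).refl _, fun _ => Or.inl ((cw L ω).refl _)⟩
    · rw [Function.update_self, Function.update_of_ne hy]
      constructor
      · rintro (h | ⟨_, h⟩ | ⟨_, h⟩)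
        · exact (hiso _ h).elim
        · exact (hiso _ h).elim
        · exact h
      · intro h
        exact Or.inr (Or.inr ⟨(cw L ω).refl _, h⟩)
  · by_cases hy : y = k
    · subst hy
      rw [Function.update_self, Function.update_of_ne hx]
      constructor
      · rintro (h | ⟨h, _⟩ | ⟨h, _⟩)
        · exact (hiso _ (Setoid.symm' _ h)).elim
        · exact h
        · exact (hiso _ (Setoid.symm' _ h)).elim
      · intro h
        exact Or.inr (Or.inl ⟨h, (cw L ω).refl _⟩)
    · rw [Function.update_of_ne hx, Function.update_of_ne hy]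
      constructor
      · rintro (h | ⟨_, h⟩ | ⟨h, _⟩)
        · exact h
        · exact (hiso _ h).elim
        · exact (hiso _ (Setoid.symm' _ h)).elim
      · exact fun h => Or.inl h

lemma st_congr_wall {L : ℤ} {f f' : ℕ → ℤ × ℤ} (ω : Finset (Sym2 (ℤ × ℤ)))
    (h : ∀ k, f k = f' k ∨ ((f k).1 + (f k).2 = L ∧ (f' k).1 + (f' k).2 = L)) :
    st L f ω = st L f' ω := by
  have h' : ∀ k, cw L ω (f k) (f' k) := by
    intro k
    rcases h k with h | ⟨h1, h2⟩
    · rw [h]
    · exact cw_wall h1 h2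
  ext x y
  rw [st_rel, st_rel]
  constructor
  · intro h
    exact Setoid.trans' _ (Setoid.symm' _ (h' x)) (Setoid.trans' _ h (h' y))
  · intro h
    exact Setoid.trans' _ (h' x) (Setoid.trans' _ h (Setoid.symm' _ (h' y)))

/-! ### the moves on laws -/

lemma Rt_half (i : ℕ) (v : IP.M) : IP.Rt i (Real.pi / 6) v = (1 / 2 : ℝ) • v + (1 / 2 : ℝ) • IP.E i v := by
  unfold IP.Rt IP.s
  have h1 : Real.sin (Real.pi / 3 + -(Real.pi / 6)) = 1 / 2 := by
    rw [show Real.pi / 3 + -(Real.pi / 6) = Real.pi / 6 by ring, Real.sin_pi_div_six]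
  rw [h1, Real.sin_pi_div_six]
  simp

lemma E_law (i : ℕ) (L : ℤ) (F : Finset (Sym2 (ℤ × ℤ))) (f : ℕ → ℤ × ℤ) :
    IP.E i (law L F f) = ∑ ω ∈ F.powerset, Finsupp.single (IP.act i (st L f ω)) ((1 / 2) ^ #F) := by
  unfold law IP.E
  rw [map_sum]
  apply sum_congr rfl
  intro ω _
  rw [Finsupp.lmapDomain_apply, Finsupp.mapDomain_single]

lemma half_law (L : ℤ) (F : Finset (Sym2 (ℤ × ℤ))) (f : ℕ → ℤ × ℤ) :
    (1 / 2 : ℝ) • law L F f =
      ∑ ω ∈ F.powerset, Finsupp.single (st L f ω) ((1 / 2) ^ (#F + 1)) := by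
  unfold law
  rw [smul_sum]
  apply sum_congr rfl
  intro ω _
  rw [Finsupp.smul_single, smul_eq_mul, pow_succ, mul_comm]

lemma law_insert {L : ℤ} {F : Finset (Sym2 (ℤ × ℤ))} {e : Sym2 (ℤ × ℤ)} (he : e ∉ F)
    (f : ℕ → ℤ × ℤ) : law L (insert e F) f =
      ∑ ω ∈ F.powerset, Finsupp.single (st L f ω) ((1 / 2) ^ (#F + 1)) +
        ∑ ω ∈ F.powerset, Finsupp.single (st L f (insert e ω)) ((1 / 2) ^ (#F + 1)) := by
  unfold law
  rw [sum_powerset_insert he, card_insert_of_notMem he]

lemma half_E_law (i : ℕ) (L : ℤ) (F : Finset (Sym2 (ℤ × ℤ))) (f : ℕ → ℤ × ℤ) :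
    (1 / 2 : ℝ) • IP.E i (law L F f) =
      ∑ ω ∈ F.powerset, Finsupp.single (IP.act i (st L f ω)) ((1 / 2) ^ (#F + 1)) := by
  rw [E_law, smul_sum]
  apply sum_congr rfl
  intro ω _
  rw [Finsupp.smul_single, smul_eq_mul, pow_succ, mul_comm]

lemma act_odd' (k : ℕ) (σ : IP.St) : IP.act (2 * k + 1) σ = IP.join k (k + 1) σ := by
  unfold IP.act
  rw [if_neg (by omega), show (2 * k + 1) / 2 = k by omega]

lemma act_even' (k : ℕ) (σ : IP.St) : IP.act (2 * k) σ = IP.detach k σ := by
  unfold IP.act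
  rw [if_pos (by omega), show (2 * k) / 2 = k by omega]

lemma law_join {L : ℤ} {F : Finset (Sym2 (ℤ × ℤ))} {f : ℕ → ℤ × ℤ} {k : ℕ}
    (he : s(f k, f (k + 1)) ∉ F) : law L (insert s(f k, f (k + 1)) F) f =
      IP.Rt (2 * k + 1) (Real.pi / 6) (law L F f) := by
  rw [Rt_half, law_insert he, half_law, half_E_law]
  congr 1
  apply sum_congr rfl
  intro ω _
  rw [st_join, act_odd']

lemma law_detach {L : ℤ} {F : Finset (Sym2 (ℤ × ℤ))} {f : ℕ → ℤ × ℤ} {k : ℕ} {v : ℤ × ℤ}
    (h1 : ∀ u, s(v, u) ∉ F) (h2 : v.1 + v.2 ≠ L) (h3 : ∀ j, f j ≠ v) :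
    law L (insert s(f k, v) F) (Function.update f k v) =
      IP.Rt (2 * k) (Real.pi / 6) (law L F f) := by
  have he : s(f k, v) ∉ F := by
    rw [Sym2.eq_swap]
    exact h1 _
  rw [Rt_half, law_insert he, half_law, half_E_law, add_comm]
  congr 1
  · apply sum_congr rfl
    intro ω hω
    rw [mem_powerset] at hω
    rw [st_move (fun u h => h1 u (hω h)) h2 h3]
  · apply sum_congr rfl
    intro ω hω
    rw [mem_powerset] at hω
    rw [st_detach (fun u h => h1 u (hω h)) h2 (fun j _ => h3 j), act_even']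

lemma law_congr_wall {L : ℤ} {f f' : ℕ → ℤ × ℤ} (F : Finset (Sym2 (ℤ × ℤ)))
    (h : ∀ k, f k = f' k ∨ ((f k).1 + (f k).2 = L ∧ (f' k).1 + (f' k).2 = L)) :
    law L F f = law L F f' := by
  unfold law
  apply sum_congr rfl
  intro ω _
  rw [st_congr_wall ω h]

lemma De_law (L : ℤ) (F : Finset (Sym2 (ℤ × ℤ))) (f : ℕ → ℤ × ℤ) :
    IP.De 0 (law L F f) = law L F (fun k => f (k + 1)) := by
  unfold law IP.De
  rw [map_sum]
  apply sum_congr rfl
  intro ω _
  rw [Finsupp.lmapDomain_apply, Finsupp.mapDomain_single]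
  congr 1

/-! ### a sweep -/

/-- the front during a sweep -/
def stg (f g : ℕ → ℤ × ℤ) (j : ℕ) : ℕ → ℤ × ℤ := fun k => if j ≤ 2 * k then g k else f k

/-- the edges of a sweep -/
def ed (f g : ℕ → ℤ × ℤ) (i : ℕ) : Sym2 (ℤ × ℤ) := s(f (i / 2), g ((i + 1) / 2))

/-- admissible sweeps -/
structure Adm (L : ℤ) (f g : ℕ → ℤ × ℤ) (off top : ℕ) (F : Finset (Sym2 (ℤ × ℤ))) : Prop where
  h1 : ∀ i j, off ≤ i → i < top → off ≤ j → j < top → f (i / 2) ≠ g ((j + 1) / 2)
  h2 : ∀ i j, off ≤ i → i < top → off ≤ j → j < top → i / 2 ≠ j / 2 → f (i / 2) ≠ f (j / 2)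
  h3 : ∀ i, off ≤ i → i < top → ed f g i ∉ F
  h4 : ∀ k, off ≤ 2 * k → 2 * k < top → (∀ u, s(g k, u) ∉ F) ∧ (g k).1 + (g k).2 ≠ L ∧
    (∀ j, j ≠ k → g j ≠ g k) ∧ ∀ j, f j ≠ g k

lemma step {L : ℤ} {f g : ℕ → ℤ × ℤ} {off i : ℕ} {F : Finset (Sym2 (ℤ × ℤ))} (hi : off ≤ i)
    (h : Adm L f g off (i + 1) F) :
    IP.Rt i (Real.pi / 6) (law L F (stg f g (i + 1))) = law L (insert (ed f g i) F) (stg f g i) := by
  rcases Nat.even_or_odd' i with ⟨k, hk | hk⟩
  · subst hk
    obtain ⟨a1, a2, a3, a4⟩ := h.h4 k hi (by omega)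
    have e1 : stg f g (2 * k + 1) k = f k := by
      unfold stg; rw [if_neg (by omega)]
    have e2 : stg f g (2 * k) = Function.update (stg f g (2 * k + 1)) k (g k) := by
      funext j
      by_cases hj : j = k
      · subst hj
        rw [Function.update_self]
        unfold stg
        rw [if_pos le_rfl]
      · rw [Function.update_of_ne hj]
        unfold stg
        by_cases hj2 : k < j
        · rw [if_pos (by omega), if_pos (by omega)]
        · rw [if_neg (by omega), if_neg (by omega)]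
    have e3 : ed f g (2 * k) = s(stg f g (2 * k + 1) k, g k) := by
      rw [e1]
      unfold ed
      rw [show 2 * k / 2 = k by omega, show (2 * k + 1) / 2 = k by omega]
    rw [e2, e3, law_detach a1 a2]
    intro j
    unfold stg
    by_cases hj : 2 * k + 1 ≤ 2 * j
    · rw [if_pos hj]
      exact a3 j (by omega)
    · rw [if_neg hj]
      exact a4 j
  · subst hk
    have e1 : stg f g (2 * k + 1 + 1) k = f k := by
      unfold stg; rw [if_neg (by omega)]
    have e2 : stg f g (2 * k + 1 + 1) (k + 1) = g (k + 1) := by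
      unfold stg; rw [if_pos (by omega)]
    have e3 : stg f g (2 * k + 1) = stg f g (2 * k + 1 + 1) := by
      funext j
      unfold stg
      by_cases hj : k < j
      · rw [if_pos (by omega), if_pos (by omega)]
      · rw [if_neg (by omega), if_neg (by omega)]
    have e4 : ed f g (2 * k + 1) = s(stg f g (2 * k + 1 + 1) k, stg f g (2 * k + 1 + 1) (k + 1)) := by
      rw [e1, e2]
      unfold ed
      rw [show (2 * k + 1) / 2 = k by omega, show (2 * k + 1 + 1) / 2 = k + 1 by omega]
    have h3 := h.h3 (2 * k + 1) hi (by omega)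
    rw [e4] at h3 ⊢
    rw [e3, law_join h3]

lemma Adm.pred {L : ℤ} {f g : ℕ → ℤ × ℤ} {off i : ℕ} {F : Finset (Sym2 (ℤ × ℤ))} (hi : off ≤ i)
    (h : Adm L f g off (i + 1) F) : Adm L f g off i (insert (ed f g i) F) where
  h1 := fun a b ha ha' hb hb' => h.h1 a b ha (by omega) hb (by omega)
  h2 := fun a b ha ha' hb hb' => h.h2 a b ha (by omega) hb (by omega)
  h3 := by
    intro a ha ha'
    rw [mem_insert, not_or]
    refine ⟨?_, h.h3 a ha (by omega)⟩
    intro he
    unfold ed at he
    rw [Sym2.eq_iff] at he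
    rcases he with ⟨h5, h6⟩ | ⟨h5, _⟩
    · by_cases hai : a / 2 = i / 2
      · have h7 := (h.h4 (a / 2) (by omega) (by omega)).2.2.1 ((i + 1) / 2) (by omega)
        rw [show (a + 1) / 2 = a / 2 by omega] at h6
        exact h7 h6.symm
      · exact h.h2 a i ha (by omega) hi (by omega) hai h5
    · exact h.h1 a i ha (by omega) hi (by omega) h5
  h4 := by
    intro k hk hk'
    obtain ⟨a1, a2, a3, a4⟩ := h.h4 k hk (by omega)
    refine ⟨?_, a2, a3, a4⟩
    intro u
    rw [mem_insert, not_or]
    refine ⟨?_, a1 u⟩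
    intro he
    unfold ed at he
    rw [Sym2.eq_iff] at he
    rcases he with ⟨h5, _⟩ | ⟨h5, _⟩
    · exact a4 _ h5.symm
    · exact a3 ((i + 1) / 2) (by omega) h5.symm

theorem sweep {L : ℤ} {f g : ℕ → ℤ × ℤ} {off : ℕ} (m : ℕ) : ∀ F : Finset (Sym2 (ℤ × ℤ)),
    Adm L f g off (off + m) F → IP.row off zb m (law L F (stg f g (off + m))) =
      law L (F ∪ (Ico off (off + m)).image (ed f g)) (stg f g off) := by
  induction m with
  | zero =>
    intro F _
    simp [IP.row]
  | succ m ih =>
    intro F h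
    have h' : Adm L f g off ((off + m) + 1) F := h
    have e1 : IP.row off zb (m + 1) (law L F (stg f g (off + (m + 1)))) =
        IP.row off zb m (IP.Rt (off + m) (Real.pi / 6) (law L F (stg f g ((off + m) + 1)))) := by
      unfold zb
      simp only [IP.row, LinearMap.comp_apply, zero_add]
      rfl
    rw [e1, step (by omega) h', ih _ (h'.pred (by omega))]
    congr 1
    ext e
    rw [mem_union, mem_union, mem_insert, mem_image, mem_image]
    constructor
    · rintro ((rfl | h) | ⟨a, ha, rfl⟩)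
      · right
        exact ⟨off + m, by rw [mem_Ico]; omega, rfl⟩
      · left
        exact h
      · right
        exact ⟨a, by rw [mem_Ico] at ha ⊢; omega, rfl⟩
    · rintro (h | ⟨a, ha, rfl⟩)
      · left; right
        exact h
      · rw [mem_Ico] at ha
        by_cases ham : a = off + m
        · left; left
          rw [ham]
        · right
          exact ⟨a, by rw [mem_Ico]; omega, rfl⟩

/-! ### one double layer -/

/-- the front at the level `x - y = 2T+2` -/
def gm (n : ℕ) (T : ℤ) (k : ℕ) : ℤ × ℤ :=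
  if k ≤ n then ((k:ℤ) + T + 1, (k:ℤ) - T - 1) else ((n:ℤ) + T + 1, (n:ℤ) - T)

/-- the front at the level `x - y = 2T+3`, before relabelling -/
def hm (n : ℕ) (T : ℤ) (k : ℕ) : ℤ × ℤ :=
  (min (k:ℤ) (n + 1) + T + 1, min (k:ℤ) (n + 1) - T - 2)

lemma fr_apply {n : ℕ} {T : ℤ} {k : ℕ} (h : k ≤ n) : fr n T k = ((k:ℤ) + T + 1, (k:ℤ) - T) := by
  unfold fr
  rw [min_eq_left (by exact_mod_cast h)]

lemma fr_wall {n : ℕ} {T : ℤ} {k : ℕ} (h : n ≤ k) : fr n T k = ((n:ℤ) + T + 1, (n:ℤ) - T) := by
  unfold fr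
  rw [min_eq_right (by exact_mod_cast h)]

lemma gm_apply {n : ℕ} {T : ℤ} {k : ℕ} (h : k ≤ n) : gm n T k = ((k:ℤ) + T + 1, (k:ℤ) - T - 1) := by
  unfold gm
  rw [if_pos h]

lemma gm_wall {n : ℕ} {T : ℤ} {k : ℕ} (h : n < k) : gm n T k = ((n:ℤ) + T + 1, (n:ℤ) - T) := by
  unfold gm
  rw [if_neg (by omega)]

lemma hm_apply {n : ℕ} {T : ℤ} {k : ℕ} (h : k ≤ n + 1) :
    hm n T k = ((k:ℤ) + T + 1, (k:ℤ) - T - 2) := by
  unfold hm
  rw [min_eq_left (by exact_mod_cast h)]

lemma hm_wall {n : ℕ} {T : ℤ} {k : ℕ} (h : n + 1 ≤ k) :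
    hm n T k = ((n:ℤ) + T + 2, (n:ℤ) - T - 1) := by
  unfold hm
  rw [min_eq_right (by exact_mod_cast h)]
  ext <;> simp only <;> ring

lemma fr_level (n : ℕ) (T : ℤ) (k : ℕ) : (fr n T k).1 - (fr n T k).2 = 2 * T + 1 := by
  unfold fr; simp only; ring

lemma hm_level (n : ℕ) (T : ℤ) (k : ℕ) : (hm n T k).1 - (hm n T k).2 = 2 * T + 3 := by
  unfold hm; simp only; ring

lemma adm0 (n : ℕ) (T : ℤ) {F : Finset (Sym2 (ℤ × ℤ))}
    (hF : ∀ u v, s(u, v) ∈ F → u.1 - u.2 ≤ 2 * T + 1) :
    Adm (2 * n + 1) (fr n T) (gm n T) 0 (0 + (2 * n + 1)) F where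
  h1 := by
    intro i j _ hi _ hj
    rw [fr_apply (by omega), gm_apply (by omega)]
    intro h
    rw [Prod.mk.injEq] at h
    omega
  h2 := by
    intro i j _ hi _ hj hij
    rw [fr_apply (by omega), fr_apply (by omega)]
    intro h
    rw [Prod.mk.injEq] at h
    omega
  h3 := by
    intro i _ hi h
    unfold ed at h
    rw [Sym2.eq_swap, gm_apply (by omega)] at h
    have := hF _ _ h
    simp only at this
    omega
  h4 := by
    intro k _ hk
    rw [gm_apply (by omega)]
    refine ⟨?_, ?_, ?_, ?_⟩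
    · intro u h
      have := hF _ _ h
      simp only at this
      omega
    · simp only
      omega
    · intro j hj
      by_cases hj' : j ≤ n
      · rw [gm_apply hj']
        intro h
        rw [Prod.mk.injEq] at h
        omega
      · rw [gm_wall (by omega)]
        intro h
        rw [Prod.mk.injEq] at h
        omega
    · intro j h
      have := fr_level n T j
      rw [h] at this
      simp only at this
      omega

lemma adm1 (n : ℕ) (T : ℤ) {F : Finset (Sym2 (ℤ × ℤ))}
    (hF : ∀ u v, s(u, v) ∈ F → u.1 - u.2 ≤ 2 * T + 2) :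
    Adm (2 * n + 1) (gm n T) (hm n T) 1 (1 + (2 * n + 1)) F where
  h1 := by
    intro i j _ hi _ hj
    rw [gm_apply (by omega), hm_apply (by omega)]
    intro h
    rw [Prod.mk.injEq] at h
    omega
  h2 := by
    intro i j _ hi _ hj hij
    rw [gm_apply (by omega), gm_apply (by omega)]
    intro h
    rw [Prod.mk.injEq] at h
    omega
  h3 := by
    intro i _ hi h
    unfold ed at h
    rw [Sym2.eq_swap] at h
    have := hF _ _ h
    have h2 := hm_level n T ((i + 1) / 2)
    omega
  h4 := by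
    intro k hk1 hk
    rw [hm_apply (by omega)]
    refine ⟨?_, ?_, ?_, ?_⟩
    · intro u h
      have := hF _ _ h
      simp only at this
      omega
    · simp only
      omega
    · intro j hj
      by_cases hj' : j ≤ n + 1
      · rw [hm_apply hj']
        intro h
        rw [Prod.mk.injEq] at h
        omega
      · rw [hm_wall (by omega)]
        intro h
        rw [Prod.mk.injEq] at h
        omega
    · intro j
      by_cases hj' : j ≤ n
      · rw [gm_apply hj']
        intro h
        rw [Prod.mk.injEq] at h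
        omega
      · rw [gm_wall (by omega)]
        intro h
        rw [Prod.mk.injEq] at h
        omega

/-- the edges between the levels `2T+1` and `2T+2` -/
def E0 (n : ℕ) (T : ℤ) : Finset (Sym2 (ℤ × ℤ)) :=
  (Ico 0 (0 + (2 * n + 1))).image (ed (fr n T) (gm n T))

/-- the edges between the levels `2T+2` and `2T+3` -/
def E1 (n : ℕ) (T : ℤ) : Finset (Sym2 (ℤ × ℤ)) :=
  (Ico 1 (1 + (2 * n + 1))).image (ed (gm n T) (hm n T))

theorem double_row (n : ℕ) (T : ℤ) {F : Finset (Sym2 (ℤ × ℤ))}
    (hF : ∀ u v, s(u, v) ∈ F → u.1 - u.2 ≤ 2 * T + 1) :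
    IP.Tt n zb (law (2 * n + 1) F (fr n T)) =
      law (2 * n + 1) (F ∪ E0 n T ∪ E1 n T) (fr n (T + 1)) := by
  have hF' : ∀ u v, s(u, v) ∈ F ∪ E0 n T → u.1 - u.2 ≤ 2 * T + 2 := by
    intro u v h
    rw [mem_union] at h
    rcases h with h | h
    · have := hF u v h
      omega
    · unfold E0 at h
      rw [mem_image] at h
      obtain ⟨i, hi, he⟩ := h
      rw [mem_Ico] at hi
      unfold ed at he
      rw [gm_apply (by omega), Sym2.eq_iff] at he
      rcases he with ⟨rfl, rfl⟩ | ⟨rfl, rfl⟩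
      · have := fr_level n T (i / 2)
        omega
      · simp only
        omega
  have s0 : stg (fr n T) (gm n T) (0 + (2 * n + 1)) = fr n T := by
    funext k
    unfold stg
    by_cases hk : n < k
    · rw [if_pos (by omega), gm_wall hk, fr_wall (by omega)]
    · rw [if_neg (by omega)]
  have s1 : stg (fr n T) (gm n T) 0 = gm n T := by
    funext k
    unfold stg
    rw [if_pos (by omega)]
  have r0 := sweep (2 * n + 1) F (adm0 n T hF)
  rw [s0, s1] at r0
  have r1 := sweep (2 * n + 1) (F ∪ E0 n T) (adm1 n T hF')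
  have w1 : law (2 * n + 1) (F ∪ E0 n T) (gm n T) =
      law (2 * n + 1) (F ∪ E0 n T) (stg (gm n T) (hm n T) (1 + (2 * n + 1))) := by
    apply law_congr_wall
    intro k
    unfold stg
    by_cases hk : n < k
    · right
      rw [if_pos (by omega), gm_wall hk, hm_wall (by omega)]
      simp only
      omega
    · left
      rw [if_neg (by omega)]
  have w2 : (fun k => stg (gm n T) (hm n T) 1 (k + 1)) = fr n (T + 1) := by
    funext k
    unfold stg
    rw [if_pos (by omega)]
    unfold hm fr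
    rcases le_total (k:ℤ) n with h | h
    · rw [min_eq_left (by push_cast; omega), min_eq_left h]
      ext <;> simp only <;> push_cast <;> ring
    · rw [min_eq_right (by push_cast; omega), min_eq_right h]
      ext <;> simp only <;> ring
  unfold IP.Tt
  rw [LinearMap.comp_apply, LinearMap.comp_apply, r0]
  change IP.De 0 (IP.row 1 zb (2 * n + 1) (law (2 * n + 1) (F ∪ E0 n T) (gm n T))) = _
  rw [w1, r1, De_law, w2]
  rfl

lemma edge_cases {S : Finset (ℤ × ℤ)} {e : Sym2 (ℤ × ℤ)} (he : e ∈ edgesIn S) :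
    (∃ i j, e = hE i j) ∨ (∃ i j, e = vE i j) := by
  induction e using Sym2.ind with
  | _ u v =>
    rw [mem_edgesIn] at he
    rcases adj_edge_cases he.2.2 with ⟨x, y, h, _⟩ | ⟨x, y, h, _⟩
    · exact Or.inr ⟨x, y, h⟩
    · exact Or.inl ⟨x, y, h⟩

/-- the edges of the strip -/
theorem edges_step (n : ℕ) {a T : ℤ} (ha : a ≤ 2 * T + 1) :
    edgesIn (reg n a (2 * T + 1)) ∪ E0 n T ∪ E1 n T = edgesIn (reg n a (2 * (T + 1) + 1)) := by
  ext e
  constructor
  · intro h
    rw [mem_union, mem_union] at h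
    rcases h with (h | h) | h
    · refine edgesIn_mono ?_ h
      intro z hz
      rw [mem_reg] at hz ⊢
      omega
    · unfold E0 at h
      rw [mem_image] at h
      obtain ⟨i, hi, rfl⟩ := h
      rw [mem_Ico] at hi
      unfold ed
      rw [fr_apply (by omega), gm_apply (by omega), mem_edgesIn, mem_reg, mem_reg]
      simp only
      refine ⟨by omega, by omega, ?_⟩
      rcases Nat.even_or_odd' i with ⟨k, hk | hk⟩
      · left
        simp only
        have e1 : i / 2 = k := by omega
        have e2 : (i + 1) / 2 = k := by omega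
        rw [e1, e2]
        refine ⟨rfl, ?_⟩
        rw [show (k:ℤ) - T - (k - T - 1) = 1 by ring]
        simp
      · right
        simp only
        have e1 : i / 2 = k := by omega
        have e2 : (i + 1) / 2 = k + 1 := by omega
        rw [e1, e2]
        refine ⟨by push_cast; ring, ?_⟩
        rw [show (k:ℤ) + T + 1 - (((k + 1 : ℕ) : ℤ) + T + 1) = -1 by push_cast; ring]
        simp
    · unfold E1 at h
      rw [mem_image] at h
      obtain ⟨i, hi, rfl⟩ := h
      rw [mem_Ico] at hi
      unfold ed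
      rw [gm_apply (by omega), hm_apply (by omega), mem_edgesIn, mem_reg, mem_reg]
      simp only
      refine ⟨by omega, by omega, ?_⟩
      rcases Nat.even_or_odd' i with ⟨k, hk | hk⟩
      · left
        simp only
        have e1 : i / 2 = k := by omega
        have e2 : (i + 1) / 2 = k := by omega
        rw [e1, e2]
        refine ⟨rfl, ?_⟩
        rw [show (k:ℤ) - T - 1 - (k - T - 2) = 1 by ring]
        simp
      · right
        simp only
        have e1 : i / 2 = k := by omega
        have e2 : (i + 1) / 2 = k + 1 := by omega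
        rw [e1, e2]
        refine ⟨by push_cast; ring, ?_⟩
        rw [show (k:ℤ) + T + 1 - (((k + 1 : ℕ) : ℤ) + T + 1) = -1 by push_cast; ring]
        simp
  · intro h
    rw [mem_union, mem_union]
    rcases edge_cases h with ⟨x, y, rfl⟩ | ⟨x, y, rfl⟩
    · rw [hE_mem, mem_reg, mem_reg] at h
      simp only at h
      by_cases h1 : x - y + 1 ≤ 2 * T + 1
      · left; left
        rw [hE_mem, mem_reg, mem_reg]
        simp only
        omega
      · by_cases h2 : x - y = 2 * T + 1
        · left; right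
          unfold E0
          rw [mem_image]
          obtain ⟨k, hk⟩ : ∃ k : ℕ, x + y = 2 * (k:ℤ) + 1 := ⟨((x + y) / 2).toNat, by omega⟩
          refine ⟨2 * k + 1, by rw [mem_Ico]; omega, ?_⟩
          unfold ed hE
          rw [show (2 * k + 1) / 2 = k by omega, show (2 * k + 1 + 1) / 2 = k + 1 by omega,
            fr_apply (by omega), gm_apply (by omega)]
          have e1 : (k:ℤ) + T + 1 = x := by omega
          have e2 : (k:ℤ) - T = y := by omega
          have e3 : ((k + 1 : ℕ):ℤ) + T + 1 = x + 1 := by push_cast; omega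
          have e4 : ((k + 1 : ℕ):ℤ) - T - 1 = y := by push_cast; omega
          rw [e1, e2, e3, e4]
        · right
          unfold E1
          rw [mem_image]
          obtain ⟨k, hk⟩ : ∃ k : ℕ, x + y = 2 * (k:ℤ) := ⟨((x + y) / 2).toNat, by omega⟩
          refine ⟨2 * k + 1, by rw [mem_Ico]; omega, ?_⟩
          unfold ed hE
          rw [show (2 * k + 1) / 2 = k by omega, show (2 * k + 1 + 1) / 2 = k + 1 by omega,
            gm_apply (by omega), hm_apply (by omega)]
          have e1 : (k:ℤ) + T + 1 = x := by omega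
          have e2 : (k:ℤ) - T - 1 = y := by omega
          have e3 : ((k + 1 : ℕ):ℤ) + T + 1 = x + 1 := by push_cast; omega
          have e4 : ((k + 1 : ℕ):ℤ) - T - 2 = y := by push_cast; omega
          rw [e1, e2, e3, e4]
    · rw [vE_mem, mem_reg, mem_reg] at h
      simp only at h
      by_cases h1 : x - y ≤ 2 * T + 1
      · left; left
        rw [vE_mem, mem_reg, mem_reg]
        simp only
        omega
      · by_cases h2 : x - y = 2 * T + 2
        · left; right
          unfold E0
          rw [mem_image]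
          obtain ⟨k, hk⟩ : ∃ k : ℕ, x + y = 2 * (k:ℤ) := ⟨((x + y) / 2).toNat, by omega⟩
          refine ⟨2 * k, by rw [mem_Ico]; omega, ?_⟩
          unfold ed vE
          rw [show (2 * k) / 2 = k by omega, show (2 * k + 1) / 2 = k by omega,
            fr_apply (by omega), gm_apply (by omega), Sym2.eq_swap]
          have e1 : (k:ℤ) + T + 1 = x := by omega
          have e2 : (k:ℤ) - T - 1 = y := by omega
          have e4 : (k:ℤ) - T = y + 1 := by omega
          rw [e1, e2, e4]
        · right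
          unfold E1
          rw [mem_image]
          obtain ⟨k, hk⟩ : ∃ k : ℕ, x + y = 2 * (k:ℤ) - 1 := ⟨((x + y + 1) / 2).toNat, by omega⟩
          refine ⟨2 * k, by rw [mem_Ico]; omega, ?_⟩
          unfold ed vE
          rw [show (2 * k) / 2 = k by omega, show (2 * k + 1) / 2 = k by omega,
            gm_apply (by omega), hm_apply (by omega), Sym2.eq_swap]
          have e1 : (k:ℤ) + T + 1 = x := by omega
          have e2 : (k:ℤ) - T - 2 = y := by omega
          have e4 : (k:ℤ) - T - 1 = y + 1 := by omega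
          rw [e1, e2, e4]

/-! ### the initial state -/

lemma edgesIn_line (n : ℕ) (a : ℤ) : edgesIn (reg n a a) = ∅ := by
  rw [eq_empty_iff_forall_notMem]
  intro e h
  rcases edge_cases h with ⟨x, y, rfl⟩ | ⟨x, y, rfl⟩
  · rw [hE_mem, mem_reg, mem_reg] at h
    simp only at h
    omega
  · rw [vE_mem, mem_reg, mem_reg] at h
    simp only at h
    omega

lemma st_empty (n : ℕ) (T : ℤ) : st (2 * n + 1) (fr n T) ∅ = IP.bot n := by
  let S : Setoid (ℤ × ℤ) :=
    { r := fun x y => x = y ∨ (x.1 + x.2 = 2 * n + 1 ∧ y.1 + y.2 = 2 * n + 1)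
      iseqv := by
        refine ⟨fun x => Or.inl rfl, ?_, ?_⟩
        · rintro x y (rfl | ⟨h1, h2⟩)
          · exact Or.inl rfl
          · exact Or.inr ⟨h2, h1⟩
        · rintro x y z (rfl | ⟨h1, h2⟩) (rfl | ⟨h3, h4⟩)
          · exact Or.inl rfl
          · exact Or.inr ⟨h3, h4⟩
          · exact Or.inr ⟨h1, h2⟩
          · exact Or.inr ⟨h1, h4⟩ }
  have hS : cw (2 * n + 1) ∅ ≤ S := by
    rw [cw_le_iff]
    exact ⟨fun u v h => absurd h (notMem_empty _), fun u v h1 h2 => Or.inr ⟨h1, h2⟩⟩
  ext x y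
  rw [st_rel]
  change _ ↔ x = y ∨ (n ≤ x ∧ n ≤ y)
  have wall : ∀ k : ℕ, (fr n T k).1 + (fr n T k).2 = 2 * n + 1 ↔ n ≤ k := by
    intro k
    unfold fr
    simp only
    rcases le_total (k:ℤ) n with h | h
    · rw [min_eq_left h]; omega
    · rw [min_eq_right h]; omega
  constructor
  · intro h
    rcases hS h with h | ⟨h1, h2⟩
    · by_cases hx : n ≤ x
      · by_cases hy : n ≤ y
        · exact Or.inr ⟨hx, hy⟩
        · exfalso
          have h3 := (wall x).2 hx
          rw [h] at h3
          exact hy ((wall y).1 h3)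
      · by_cases hy : n ≤ y
        · exfalso
          have h3 := (wall y).2 hy
          rw [← h] at h3
          exact hx ((wall x).1 h3)
        · left
          rw [fr_apply (by omega), fr_apply (by omega), Prod.mk.injEq] at h
          omega
    · exact Or.inr ⟨(wall x).1 h1, (wall y).1 h2⟩
  · rintro (rfl | ⟨h1, h2⟩)
    · exact (cw _ _).refl _
    · exact cw_wall ((wall x).2 h1) ((wall y).2 h2)

/-- **The law of the state of a half strip.** -/
theorem law_strip (n : ℕ) (T : ℤ) (m : ℕ) :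
    law (2 * n + 1) (edgesIn (reg n (2 * T + 1) (2 * (T + m) + 1))) (fr n (T + m)) =
      ((IP.Tt n zb) ^ m) (Finsupp.single (IP.bot n) 1) := by
  induction m with
  | zero =>
    rw [Nat.cast_zero, add_zero, edgesIn_line, pow_zero]
    unfold law
    rw [powerset_empty, sum_singleton, st_empty]
    simp
  | succ m ih =>
    rw [pow_succ', Module.End.mul_apply, ← ih, double_row, edges_step n (by omega)]
    · push_cast
      rw [← add_assoc]
    · intro u v h
      rw [mem_edgesIn, mem_reg] at h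
      exact h.1.2.2.2

end H47Perc.DS
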