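import Pool.Agent.Helper92.Perc.StripRSW
import Pool.Agent.Lead.IP.Defs

/-!
Percolation in the diagonal strip and partitions: definitions and first properties.
-/

set_option autoImplicit false

namespace H47Perc.DS
open Finset

/-- connectivity in `ω`, where all points of the line `x + y = L` (the wall) are identified -/
def cw (L : ℤ) (ω : Finset (Sym2 (ℤ × ℤ))) : Setoid (ℤ × ℤ) :=
  Relation.EqvGen.setoid (fun u v => s(u, v) ∈ ω ∨ (u.1 + u.2 = L ∧ v.1 + v.2 = L))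

lemma cw_edge {L : ℤ} {ω : Finset (Sym2 (ℤ × ℤ))} {u v : ℤ × ℤ} (h : s(u, v) ∈ ω) :
    cw L ω u v := Relation.EqvGen.rel _ _ (Or.inl h)

lemma cw_wall {L : ℤ} {ω : Finset (Sym2 (ℤ × ℤ))} {u v : ℤ × ℤ} (h : u.1 + u.2 = L)
    (h' : v.1 + v.2 = L) : cw L ω u v := Relation.EqvGen.rel _ _ (Or.inr ⟨h, h'⟩)

lemma cw_le_iff {L : ℤ} {ω : Finset (Sym2 (ℤ × ℤ))} {S : Setoid (ℤ × ℤ)} :
    cw L ω ≤ S ↔ (∀ u v, s(u, v) ∈ ω → S u v) ∧
      ∀ u v : ℤ × ℤ, u.1 + u.2 = L → v.1 + v.2 = L → S u v := by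
  constructor
  · intro h
    exact ⟨fun u v h' => h (cw_edge h'), fun u v h1 h2 => h (cw_wall h1 h2)⟩
  · rintro ⟨h1, h2⟩
    apply Setoid.eqvGen_le
    rintro x y (h | ⟨h, h'⟩)
    · exact h1 x y h
    · exact h2 x y h h'

lemma cw_mono {L : ℤ} {ω ω' : Finset (Sym2 (ℤ × ℤ))} (h : ω ⊆ ω') : cw L ω ≤ cw L ω' := by
  rw [cw_le_iff]
  exact ⟨fun u v h' => cw_edge (h h'), fun u v h1 h2 => cw_wall h1 h2⟩

lemma cw_union (L : ℤ) (ω ω' : Finset (Sym2 (ℤ × ℤ))) :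
    cw L (ω ∪ ω') = cw L ω ⊔ cw L ω' := by
  apply le_antisymm
  · rw [cw_le_iff]
    refine ⟨fun u v h => ?_, fun u v h1 h2 => ?_⟩
    · rw [mem_union] at h
      rcases h with h | h
      · exact (le_sup_left : cw L ω ≤ _) (cw_edge h)
      · exact (le_sup_right : cw L ω' ≤ _) (cw_edge h)
    · exact (le_sup_left : cw L ω ≤ _) (cw_wall h1 h2)
  · exact sup_le (cw_mono subset_union_left) (cw_mono subset_union_right)

/-- a vertex that is not touched by `ω` and not on the wall is isolated -/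
lemma cw_isolated {L : ℤ} {ω : Finset (Sym2 (ℤ × ℤ))} {v : ℤ × ℤ} (h1 : ∀ u, s(v, u) ∉ ω)
    (h2 : v.1 + v.2 ≠ L) {u : ℤ × ℤ} (h : cw L ω v u) : u = v := by
  let S : Setoid (ℤ × ℤ) :=
    { r := fun x y => x = y ∨ (x ≠ v ∧ y ≠ v)
      iseqv := by
        refine ⟨fun x => Or.inl rfl, ?_, ?_⟩
        · rintro x y (rfl | ⟨h1, h2⟩)
          · exact Or.inl rfl
          · exact Or.inr ⟨h2, h1⟩
        · rintro x y z (rfl | ⟨h1, h2⟩) (rfl | ⟨h3, h4⟩)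
          · exact Or.inl rfl
          · exact Or.inr ⟨h3, h4⟩
          · exact Or.inr ⟨h1, h2⟩
          · exact Or.inr ⟨h1, h4⟩ }
  have hS : cw L ω ≤ S := by
    rw [cw_le_iff]
    refine ⟨fun x y he => ?_, fun x y hx hy => ?_⟩
    · refine Or.inr ⟨?_, ?_⟩
      · rintro rfl
        exact h1 _ he
      · rintro rfl
        rw [Sym2.eq_swap] at he
        exact h1 _ he
    · refine Or.inr ⟨?_, ?_⟩
      · rintro rfl
        exact h2 hx
      · rintro rfl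
        exact h2 hy
  rcases hS h with h | ⟨h, _⟩
  · exact h.symm
  · exact absurd rfl h

/-- joining two classes -/
def joinG (u v : ℤ × ℤ) (C : Setoid (ℤ × ℤ)) : Setoid (ℤ × ℤ) where
  r x y := C x y ∨ (C x u ∧ C v y) ∨ (C x v ∧ C u y)
  iseqv := by
    refine ⟨fun x => Or.inl (C.refl x), ?_, ?_⟩
    · rintro x y (h | ⟨h1, h2⟩ | ⟨h1, h2⟩)
      · exact Or.inl (C.symm h)
      · exact Or.inr (Or.inr ⟨C.symm h2, C.symm h1⟩)
      · exact Or.inr (Or.inl ⟨C.symm h2, C.symm h1⟩)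
    · rintro x y z (h | ⟨h1, h2⟩ | ⟨h1, h2⟩) (h' | ⟨h3, h4⟩ | ⟨h3, h4⟩)
      · exact Or.inl (C.trans h h')
      · exact Or.inr (Or.inl ⟨C.trans h h3, h4⟩)
      · exact Or.inr (Or.inr ⟨C.trans h h3, h4⟩)
      · exact Or.inr (Or.inl ⟨h1, C.trans h2 h'⟩)
      · exact Or.inr (Or.inl ⟨h1, h4⟩)
      · exact Or.inl (C.trans h1 h4)
      · exact Or.inr (Or.inr ⟨h1, C.trans h2 h'⟩)
      · exact Or.inl (C.trans h1 h4)
      · exact Or.inr (Or.inr ⟨h1, h4⟩)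

lemma cw_insert (L : ℤ) (ω : Finset (Sym2 (ℤ × ℤ))) (u v : ℤ × ℤ) :
    cw L (insert s(u, v) ω) = joinG u v (cw L ω) := by
  apply le_antisymm
  · rw [cw_le_iff]
    refine ⟨fun x y h => ?_, fun x y h1 h2 => Or.inl (cw_wall h1 h2)⟩
    rw [mem_insert, Sym2.eq_iff] at h
    rcases h with (⟨rfl, rfl⟩ | ⟨rfl, rfl⟩) | h
    · exact Or.inr (Or.inl ⟨(cw L ω).refl _, (cw L ω).refl _⟩)
    · exact Or.inr (Or.inr ⟨(cw L ω).refl _, (cw L ω).refl _⟩)
    · exact Or.inl (cw_edge h)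
  · have hm : cw L ω ≤ cw L (insert s(u, v) ω) := cw_mono (subset_insert _ _)
    have he : cw L (insert s(u, v) ω) u v := cw_edge (mem_insert_self _ _)
    rw [Setoid.le_def]
    rintro x y (h | ⟨h1, h2⟩ | ⟨h1, h2⟩)
    · exact hm h
    · exact Setoid.trans' _ (hm h1) (Setoid.trans' _ he (hm h2))
    · exact Setoid.trans' _ (hm h1) (Setoid.trans' _ (Setoid.symm' _ he) (hm h2))

/-- the state of the configuration seen from the front `f` -/
def st (L : ℤ) (f : ℕ → ℤ × ℤ) (ω : Finset (Sym2 (ℤ × ℤ))) : IP.St := Setoid.comap f (cw L ω)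

/-- the law of the state, the edges of `F` being open with probability `1/2` -/
noncomputable def law (L : ℤ) (F : Finset (Sym2 (ℤ × ℤ))) (f : ℕ → ℤ × ℤ) : IP.M :=
  ∑ ω ∈ F.powerset, Finsupp.single (st L f ω) ((1 / 2) ^ #F)

open Classical in
/-- the part of the strip `0 ≤ x + y ≤ 2n+1` with `a ≤ x - y ≤ b` -/
noncomputable def reg (n : ℕ) (a b : ℤ) : Finset (ℤ × ℤ) :=
  (box (-(|a| + |b| + 2 * n + 1)) (|a| + |b| + 2 * n + 1)
    (-(|a| + |b| + 2 * n + 1)) (|a| + |b| + 2 * n + 1)).filter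
    (fun z => 0 ≤ z.1 + z.2 ∧ z.1 + z.2 ≤ 2 * n + 1 ∧ a ≤ z.1 - z.2 ∧ z.1 - z.2 ≤ b)

lemma mem_reg {n : ℕ} {a b : ℤ} {z : ℤ × ℤ} : z ∈ reg n a b ↔
    0 ≤ z.1 + z.2 ∧ z.1 + z.2 ≤ 2 * n + 1 ∧ a ≤ z.1 - z.2 ∧ z.1 - z.2 ≤ b := by
  unfold reg
  rw [mem_filter, mem_box]
  constructor
  · exact fun h => h.2
  · intro h
    refine ⟨?_, h⟩
    rcases abs_cases a with ha | ha <;> rcases abs_cases b with hb | hb <;> omega

/-- the front at the level `x - y = 2T+1` -/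
def fr (n : ℕ) (T : ℤ) (k : ℕ) : ℤ × ℤ := (min (k:ℤ) n + T + 1, min (k:ℤ) n - T)

/-- the parameters `0` -/
def zb : ℕ → ℝ := fun _ => 0

end H47Perc.DS
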