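import Pool.Agent.Helper69.RSW.HalfExp
import Pool.Agent.Helper46.RSW.RSW

/-!
The diagonal strip `0 ≤ x + y ≤ 2n+1`: the probability that the vertex `(1,0)`, which lies on the
line `x + y = 1`, is joined in the strip to the line `x + y = 2n+1` is comparable with the
half-plane one-arm probability at distance `n+1`.
-/

set_option autoImplicit false

namespace H47Perc.DS
open Finset SimpleGraph
open Pool.Agent.Helper69.RSW (Up Up.and)

open Classical in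
/-- the part of the diagonal strip `0 ≤ x + y ≤ L` with `|x - y| ≤ M` -/
noncomputable def dstrip (L M : ℤ) : Finset (ℤ × ℤ) :=
  (box (-(L + M)) (L + M) (-(L + M)) (L + M)).filter
    (fun z => 0 ≤ z.1 + z.2 ∧ z.1 + z.2 ≤ L ∧ |z.1 - z.2| ≤ M)

lemma mem_dstrip {L M : ℤ} {z : ℤ × ℤ} :
    z ∈ dstrip L M ↔ 0 ≤ z.1 + z.2 ∧ z.1 + z.2 ≤ L ∧ |z.1 - z.2| ≤ M := by
  unfold dstrip
  rw [mem_filter, mem_box]
  constructor
  · exact fun h => h.2
  · intro h
    refine ⟨?_, h⟩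
    rw [abs_le] at h
    omega

/-- the probability that `(1,0)` is joined to the line `x + y = L` in the truncated strip -/
noncomputable def pStrip (L M : ℤ) : ℝ :=
  perc half (dstrip L M) (fun ω => ∃ z : ℤ × ℤ, z.1 + z.2 = L ∧ Joined ω (1, 0) z)

/-! ### the upper bound -/

theorem pStrip_le (n : ℕ) {M : ℤ} (hM : 1 ≤ M) :
    pStrip (2 * n + 1) M ≤ 2 * piH (-1) (-1) (n + 1) := by
  unfold pStrip
  set L : ℤ := 2 * n + 1 with hL
  set S := dstrip L M with hS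
  have he : s(((0, 0) : ℤ × ℤ), ((1, 0) : ℤ × ℤ)) ∈ edgesIn S := by
    rw [mem_edgesIn, hS, mem_dstrip, mem_dstrip]
    simp only [add_zero, sub_zero, abs_zero, abs_one]
    refine ⟨by omega, by omega, Or.inr ⟨rfl, by simp⟩⟩
  have hup : Up (fun ω : Finset (Sym2 (ℤ × ℤ)) => ∃ z : ℤ × ℤ, z.1 + z.2 = L ∧
      Joined ω (1, 0) z) := by
    rintro ω ω' h ⟨z, h1, h2⟩
    exact ⟨z, h1, joined_mono h h2⟩
  have hup' : Up (fun ω : Finset (Sym2 (ℤ × ℤ)) =>
      s(((0, 0) : ℤ × ℤ), ((1, 0) : ℤ × ℤ)) ∈ ω) := fun _ _ h h' => h h'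
  have h2 := perc_harris S hup hup'
  rw [perc_mem_edge he] at h2
  have h3 : perc half S (fun ω => (∃ z : ℤ × ℤ, z.1 + z.2 = L ∧ Joined ω (1, 0) z) ∧
      s(((0, 0) : ℤ × ℤ), ((1, 0) : ℤ × ℤ)) ∈ ω) ≤ armP S (0, 0) ((n + 1 : ℕ) : ℤ) := by
    apply perc_half_mono
    rintro ω hω ⟨⟨z, hz1, hz2⟩, hz3⟩
    have hj : Joined (ω ∩ edgesIn S) (0, 0) z := by
      rw [inter_eq_left.2 hω]
      exact joined_trans (joined_edge hz3) hz2
    apply arm_of_joined (by omega) hj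
    simp only [sub_zero]
    rcases abs_cases z.1 with h' | h' <;> rcases abs_cases z.2 with h'' | h'' <;> omega
  have h4 : armP S (0, 0) ((n + 1 : ℕ) : ℤ) ≤ piH (-1) (-1) (n + 1) := by
    apply armP_le_piH
    intro w hw
    rw [hS, mem_dstrip] at hw
    have : (0:ℝ) ≤ w.1 + w.2 := by exact_mod_cast hw.1
    simp only [Int.cast_zero, sub_zero]
    linarith
  linarith

/-! ### the lower bound: deterministic part -/

open Classical in
/-- a bounded part of the half-plane `1 ≤ x + y` -/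
noncomputable def Rg (n : ℕ) : Finset (ℤ × ℤ) :=
  (box (-(2*n+1)) (2*n+1) (-(2*n+1)) (2*n+1)).filter (fun z => 1 ≤ z.1 + z.2)

lemma mem_Rg {n : ℕ} {z : ℤ × ℤ} : z ∈ Rg n ↔ z ∈ box (-(2*n+1)) (2*n+1) (-(2*n+1)) (2*n+1) ∧
    1 ≤ z.1 + z.2 := by
  unfold Rg
  rw [mem_filter]

lemma Rg_joined {n : ℕ} {ω : Finset (Sym2 (ℤ × ℤ))} {w w' : ℤ × ℤ} (h1 : w ∈ Rg n)
    (h2 : w' ∈ Rg n) (h : lattice.Adj w w') (h3 : s(w, w') ∈ ω) :
    Joined (ω ∩ edgesIn (Rg n)) w w' := by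
  apply joined_edge
  rw [mem_inter, mem_edgesIn]
  exact ⟨h3, h1, h2, h⟩

/-- the arm leaves to the right -/
lemma right_case {n : ℕ} (hn : 1 ≤ n) {ω : Finset (Sym2 (ℤ × ℤ))} {o z : ℤ × ℤ}
    (q : lattice.Walk o z) (ho : o.1 ≤ 1) (hz : (n:ℤ) + 1 ≤ z.1)
    (hq : ∀ w ∈ q.support, w ∈ Rg n ∧ w.1 + w.2 ≤ 2 * n ∧ Joined (ω ∩ edgesIn (Rg n)) o w)
    (hp : BT 1 (n+1) (-n) (2*n) (ω ∩ edgesIn (box 1 (n+1) (-n) (2*n)))) :
    ∃ v : ℤ × ℤ, 2 * (n:ℤ) + 1 ≤ v.1 + v.2 ∧ Joined (ω ∩ edgesIn (Rg n)) o v := by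
  classical
  obtain ⟨x, x', hx1, hx2, hx'1, hx'2, hj⟩ := hp
  set B := box 1 (n+1) (-n) (2*n) with hB
  set T1 := B.filter (fun w => 2 ≤ w.1 + w.2) with hT1
  have memT1 : ∀ w : ℤ × ℤ, w ∈ T1 ↔ (1 ≤ w.1 ∧ w.1 ≤ n+1 ∧ -(n:ℤ) ≤ w.2 ∧ w.2 ≤ 2*n) ∧
      2 ≤ w.1 + w.2 := by
    intro w
    rw [hT1, mem_filter, hB, mem_box]
  have hu : (x', 2*(n:ℤ)) ∈ T1 := by
    rw [memT1]; simp only; omega
  have hv : (x, -(n:ℤ)) ∉ T1 := by
    rw [memT1]; simp only; omega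
  obtain ⟨w, w', w1, w2, w3, w4, w5, w6⟩ := joined_exit inter_subset_right (joined_symm hj) hu hv
  have w1' := (memT1 w).1 w1
  have w3' := mem_box.1 w3
  have w2' : w'.1 + w'.2 ≤ 1 := by
    by_contra hcon
    exact w2 ((memT1 w').2 ⟨w3', by omega⟩)
  have hsum : w'.1 + w'.2 = 1 := by
    rcases adj_cases w4 with h | h | h | h <;> rw [h] at w2' ⊢ <;> simp only at w2' ⊢ <;> omega
  have hTR : T1 ⊆ Rg n := by
    intro y hy
    rw [memT1] at hy
    rw [mem_Rg, mem_box]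
    omega
  have w'R : w' ∈ Rg n := by
    rw [mem_Rg, mem_box]
    omega
  have hj1 : Joined (ω ∩ edgesIn T1) (x', 2*(n:ℤ)) w := by
    refine joined_mono ?_ w6
    intro e he
    rw [mem_inter, mem_inter] at he
    rw [mem_inter]
    exact ⟨he.1.1, he.2⟩
  obtain ⟨p1, hp1⟩ := walk_in hu hj1
  have toR : ∀ {y y' : ℤ × ℤ}, Joined (ω ∩ edgesIn T1) y y' → Joined (ω ∩ edgesIn (Rg n)) y y' :=
    fun h => joined_mono (inter_subset_inter_left (edgesIn_mono hTR)) h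
  -- the rays
  obtain ⟨pt, hpt⟩ := vline x' (2*(n:ℤ)) (6*n+6)
  obtain ⟨pb, hpb⟩ := vline w'.1 (w'.2 - (6*n+6 : ℕ)) (6*n+6)
  have eb : ((w'.1, w'.2 - ((6*n+6 : ℕ):ℤ) + ((6*n+6 : ℕ) : ℤ)) : ℤ × ℤ) = w' := by
    ext
    · rfl
    · simp
  set Pw := (pt.reverse.append (p1.append (Walk.cons w4 Walk.nil))).append
    (pb.copy rfl eb).reverse with hPw
  have hPs : ∀ y ∈ Pw.support, y ∈ pt.support ∨ y ∈ p1.support ∨ y ∈ pb.support := by
    intro y hy
    rw [hPw, Walk.mem_support_append_iff, Walk.mem_support_append_iff,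
      Walk.mem_support_append_iff, Walk.support_reverse, List.mem_reverse,
      Walk.support_reverse, List.mem_reverse, Walk.support_copy,
      Walk.support_cons, Walk.support_nil, List.mem_cons, List.mem_singleton] at hy
    rcases hy with (hy | hy | hy | hy) | hy
    · exact Or.inl hy
    · exact Or.inr (Or.inl hy)
    · subst hy
      exact Or.inr (Or.inl p1.end_mem_support)
    · subst hy
      exact Or.inr (Or.inr ((congrArg (fun a => a ∈ pb.support) eb).mp pb.end_mem_support))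
    · exact Or.inr (Or.inr hy)
  have hcol : ∀ y ∈ Pw.support, 1 ≤ y.1 ∧ y.1 ≤ n + 1 := by
    intro y hy
    rcases hPs y hy with h | h | h
    · have := hpt y h
      omega
    · have := (memT1 y).1 (hp1 y h).1
      omega
    · have := hpb y h
      omega
  obtain ⟨y, hy1, hy2⟩ := crossing_walks Pw q (by simp only; push_cast; omega)
    (fun y hy => by
      have := (mem_Rg.1 (hq y hy).1).1
      rw [mem_box] at this
      simp only
      push_cast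
      omega)
    (fun y hy => ho.trans (hcol y hy).1) (fun y hy => (hcol y hy).2.trans hz)
  obtain ⟨q1, q2, q3⟩ := hq y hy2
  have q4 := (mem_Rg.1 q1).2
  refine ⟨(x', 2*(n:ℤ)), by simp only; omega, ?_⟩
  rcases hPs y hy1 with h | h | h
  · have := hpt y h
    omega
  · exact joined_trans q3 (joined_symm (toR (hp1 y h).2))
  · have h5 := hpb y h
    have h6 : y = w' := by
      ext
      · omega
      · push_cast at h5
        omega
    subst h6
    refine joined_trans q3 (joined_symm (joined_trans (toR hj1) ?_))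
    exact Rg_joined (hTR w1) w'R w4 (mem_inter.1 w5).1

/-- the arm leaves through the top -/
lemma top_case {n : ℕ} (hn : 1 ≤ n) {ω : Finset (Sym2 (ℤ × ℤ))} {o z : ℤ × ℤ}
    (q : lattice.Walk o z) (ho : o.2 ≤ 1) (hz : (n:ℤ) + 1 ≤ z.2)
    (hq : ∀ w ∈ q.support, w ∈ Rg n ∧ w.1 + w.2 ≤ 2 * n ∧ Joined (ω ∩ edgesIn (Rg n)) o w)
    (hp : LR (-n) (2*n) 1 (n+1) (ω ∩ edgesIn (box (-n) (2*n) 1 (n+1)))) :
    ∃ v : ℤ × ℤ, 2 * (n:ℤ) + 1 ≤ v.1 + v.2 ∧ Joined (ω ∩ edgesIn (Rg n)) o v := by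
  classical
  obtain ⟨x, x', hx1, hx2, hx'1, hx'2, hj⟩ := hp
  set B := box (-n) (2*n) 1 (n+1) with hB
  set T1 := B.filter (fun w => 2 ≤ w.1 + w.2) with hT1
  have memT1 : ∀ w : ℤ × ℤ, w ∈ T1 ↔ (-(n:ℤ) ≤ w.1 ∧ w.1 ≤ 2*n ∧ 1 ≤ w.2 ∧ w.2 ≤ n+1) ∧
      2 ≤ w.1 + w.2 := by
    intro w
    rw [hT1, mem_filter, hB, mem_box]
  have hu : (2*(n:ℤ), x') ∈ T1 := by
    rw [memT1]; simp only; omega
  have hv : (-(n:ℤ), x) ∉ T1 := by
    rw [memT1]; simp only; omega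
  obtain ⟨w, w', w1, w2, w3, w4, w5, w6⟩ := joined_exit inter_subset_right (joined_symm hj) hu hv
  have w1' := (memT1 w).1 w1
  have w3' := mem_box.1 w3
  have w2' : w'.1 + w'.2 ≤ 1 := by
    by_contra hcon
    exact w2 ((memT1 w').2 ⟨w3', by omega⟩)
  have hsum : w'.1 + w'.2 = 1 := by
    rcases adj_cases w4 with h | h | h | h <;> rw [h] at w2' ⊢ <;> simp only at w2' ⊢ <;> omega
  have hTR : T1 ⊆ Rg n := by
    intro y hy
    rw [memT1] at hy
    rw [mem_Rg, mem_box]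
    omega
  have w'R : w' ∈ Rg n := by
    rw [mem_Rg, mem_box]
    omega
  have hj1 : Joined (ω ∩ edgesIn T1) (2*(n:ℤ), x') w := by
    refine joined_mono ?_ w6
    intro e he
    rw [mem_inter, mem_inter] at he
    rw [mem_inter]
    exact ⟨he.1.1, he.2⟩
  obtain ⟨p1, hp1⟩ := walk_in hu hj1
  have toR : ∀ {y y' : ℤ × ℤ}, Joined (ω ∩ edgesIn T1) y y' → Joined (ω ∩ edgesIn (Rg n)) y y' :=
    fun h => joined_mono (inter_subset_inter_left (edgesIn_mono hTR)) h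
  -- the rays
  obtain ⟨pt, hpt⟩ := hline (2*(n:ℤ)) x' (6*n+6)
  obtain ⟨pb, hpb⟩ := hline (w'.1 - (6*n+6 : ℕ)) w'.2 (6*n+6)
  have eb : ((w'.1 - ((6*n+6 : ℕ):ℤ) + ((6*n+6 : ℕ) : ℤ), w'.2) : ℤ × ℤ) = w' := by
    ext
    · simp
    · rfl
  set Pw := (pt.reverse.append (p1.append (Walk.cons w4 Walk.nil))).append
    (pb.copy rfl eb).reverse with hPw
  have hPs : ∀ y ∈ Pw.support, y ∈ pt.support ∨ y ∈ p1.support ∨ y ∈ pb.support := by
    intro y hy
    rw [hPw, Walk.mem_support_append_iff, Walk.mem_support_append_iff,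
      Walk.mem_support_append_iff, Walk.support_reverse, List.mem_reverse,
      Walk.support_reverse, List.mem_reverse, Walk.support_copy,
      Walk.support_cons, Walk.support_nil, List.mem_cons, List.mem_singleton] at hy
    rcases hy with (hy | hy | hy | hy) | hy
    · exact Or.inl hy
    · exact Or.inr (Or.inl hy)
    · subst hy
      exact Or.inr (Or.inl p1.end_mem_support)
    · subst hy
      exact Or.inr (Or.inr ((congrArg (fun a => a ∈ pb.support) eb).mp pb.end_mem_support))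
    · exact Or.inr (Or.inr hy)
  have hrow : ∀ y ∈ Pw.reverse.support, 1 ≤ y.2 ∧ y.2 ≤ n + 1 := by
    intro y hy
    rw [Walk.support_reverse, List.mem_reverse] at hy
    rcases hPs y hy with h | h | h
    · have := hpt y h
      omega
    · have := (memT1 y).1 (hp1 y h).1
      omega
    · have := hpb y h
      omega
  have hqb : ∀ y ∈ q.reverse.support, -(2*(n:ℤ)+1) ≤ y.1 ∧ y.1 ≤ 2*n+1 := by
    intro y hy
    rw [Walk.support_reverse, List.mem_reverse] at hy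
    have := (mem_Rg.1 (hq y hy).1).1
    rw [mem_box] at this
    omega
  obtain ⟨y, hy2, hy1⟩ := crossing_walks q.reverse Pw.reverse (by omega)
    (fun y hy => ⟨ho.trans (hrow y hy).1, (hrow y hy).2.trans hz⟩)
    (fun y hy => by
      have := hqb y hy
      simp only
      push_cast
      omega)
    (fun y hy => by
      have := hqb y hy
      simp only
      push_cast
      omega)
  rw [Walk.support_reverse, List.mem_reverse] at hy1 hy2
  obtain ⟨q1, q2, q3⟩ := hq y hy2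
  have q4 := (mem_Rg.1 q1).2
  refine ⟨(2*(n:ℤ), x'), by simp only; omega, ?_⟩
  rcases hPs y hy1 with h | h | h
  · have := hpt y h
    omega
  · exact joined_trans q3 (joined_symm (toR (hp1 y h).2))
  · have h5 := hpb y h
    have h6 : y = w' := by
      ext
      · push_cast at h5
        omega
      · omega
    subst h6
    refine joined_trans q3 (joined_symm (joined_trans (toR hj1) ?_))
    exact Rg_joined (hTR w1) w'R w4 (mem_inter.1 w5).1

lemma det_far {n : ℕ} (hn : 1 ≤ n) {ω : Finset (Sym2 (ℤ × ℤ))}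
    (hA : Arm (Rg n) (1, 0) ((n + 1 : ℕ) : ℤ) ω)
    (h1 : BT 1 (n+1) (-n) (2*n) (ω ∩ edgesIn (box 1 (n+1) (-n) (2*n))))
    (h2 : LR (-n) (2*n) 1 (n+1) (ω ∩ edgesIn (box (-n) (2*n) 1 (n+1)))) :
    ∃ v : ℤ × ℤ, 2 * (n:ℤ) + 1 ≤ v.1 + v.2 ∧ Joined (ω ∩ edgesIn (Rg n)) (1, 0) v := by
  obtain ⟨z, hz, hj⟩ := hA
  have ho : ((1, 0) : ℤ × ℤ) ∈ Rg n ∩ ball (1, 0) ((n + 1 : ℕ) : ℤ) := by
    rw [mem_inter, mem_Rg, mem_box, mem_ball]
    simp only [sub_self, abs_zero]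
    omega
  obtain ⟨q, hq⟩ := walk_in ho hj
  by_cases hfar : ∃ w ∈ q.support, 2 * (n:ℤ) + 1 ≤ w.1 + w.2
  · obtain ⟨w, hw1, hw2⟩ := hfar
    exact ⟨w, hw2, joined_mono (inter_subset_inter_left (edgesIn_mono inter_subset_left))
      (hq w hw1).2⟩
  · have hq' : ∀ w ∈ q.support, w ∈ Rg n ∧ w.1 + w.2 ≤ 2 * n ∧
        Joined (ω ∩ edgesIn (Rg n)) (1, 0) w := by
      intro w hw
      refine ⟨(mem_inter.1 (hq w hw).1).1, ?_, joined_mono
        (inter_subset_inter_left (edgesIn_mono inter_subset_left)) (hq w hw).2⟩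
      by_contra hcon
      exact hfar ⟨w, hw, by omega⟩
    have hz1 := (hq z q.end_mem_support).1
    rw [mem_inter, mem_Rg, mem_ball, mem_box, abs_le, abs_le] at hz1
    simp only at hz1
    unfold AtDist at hz
    simp only at hz
    have hcase : (n:ℤ) + 1 ≤ z.1 ∨ (n:ℤ) + 1 ≤ z.2 := by
      rcases hz with hz | hz
      · rcases abs_cases (z.1 - 1) with h | h <;> omega
      · rcases abs_cases (z.2 - 0) with h | h <;> omega
    rcases hcase with h | h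
    · exact right_case hn q le_rfl h hq' h1
    · exact top_case hn q (by norm_num) h hq' h2

lemma det_strip {n : ℕ} (hn : 1 ≤ n) {M : ℤ} (hM : 4 * (n:ℤ) + 2 ≤ M)
    {ω : Finset (Sym2 (ℤ × ℤ))}
    (hA : Arm (Rg n) (1, 0) ((n + 1 : ℕ) : ℤ) ω)
    (h1 : BT 1 (n+1) (-n) (2*n) (ω ∩ edgesIn (box 1 (n+1) (-n) (2*n))))
    (h2 : LR (-n) (2*n) 1 (n+1) (ω ∩ edgesIn (box (-n) (2*n) 1 (n+1)))) :
    ∃ z : ℤ × ℤ, z.1 + z.2 = 2 * (n:ℤ) + 1 ∧
      Joined (ω ∩ edgesIn (dstrip (2*n+1) M)) (1, 0) z := by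
  classical
  obtain ⟨v, hv1, hv2⟩ := det_far hn hA h1 h2
  set T0 := (Rg n).filter (fun z => z.1 + z.2 ≤ 2 * (n:ℤ)) with hT0
  have memT0 : ∀ z : ℤ × ℤ, z ∈ T0 ↔ z ∈ Rg n ∧ z.1 + z.2 ≤ 2 * (n:ℤ) := by
    intro z
    rw [hT0, mem_filter]
  have ho : ((1, 0) : ℤ × ℤ) ∈ T0 := by
    rw [memT0, mem_Rg, mem_box]
    simp only
    omega
  have hv : v ∉ T0 := by
    rw [memT0]
    omega
  obtain ⟨w, w', w1, w2, w3, w4, w5, w6⟩ := joined_exit inter_subset_right hv2 ho hv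
  have w1' := (memT0 w).1 w1
  have w2' : 2 * (n:ℤ) + 1 ≤ w'.1 + w'.2 := by
    by_contra hcon
    exact w2 ((memT0 w').2 ⟨w3, by omega⟩)
  have hsum : w'.1 + w'.2 = 2 * (n:ℤ) + 1 := by
    rcases adj_cases w4 with h | h | h | h <;> rw [h] at w2' ⊢ <;> simp only at w2' ⊢ <;> omega
  have hRd : ∀ z ∈ Rg n, z.1 + z.2 ≤ 2 * (n:ℤ) + 1 → z ∈ dstrip (2*n+1) M := by
    intro z hz hz2
    rw [mem_Rg, mem_box] at hz
    rw [mem_dstrip, abs_le]
    omega
  refine ⟨w', hsum, joined_trans (joined_mono ?_ w6) (joined_edge ?_)⟩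
  · intro e he
    rw [mem_inter, mem_inter] at he
    rw [mem_inter]
    refine ⟨he.1.1, edgesIn_mono ?_ he.2⟩
    intro z hz
    rw [memT0] at hz
    exact hRd z hz.1 (by omega)
  · rw [mem_inter, mem_edgesIn]
    exact ⟨(mem_inter.1 w5).1, hRd w w1'.1 (by omega), hRd w' w3 (by omega), w4⟩

/-! ### the lower bound -/

theorem le_pStrip {n : ℕ} (hn : 1 ≤ n) {M : ℤ} (hM : 4 * (n:ℤ) + 2 ≤ M) {c : ℝ} (hc : 0 ≤ c)
    (hcn : c ≤ pLR (3 * n) n) :
    c ^ 2 * piH (-1) (-1) (n + 1) ≤ pStrip (2 * n + 1) M := by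
  set L : ℤ := 2 * n + 1 with hL
  set T := box (-(L + M)) (L + M) (-(L + M)) (L + M) with hT
  have sR : Rg n ⊆ T := by
    intro z hz
    rw [mem_Rg, mem_box] at hz
    rw [hT, mem_box]
    omega
  have sD : dstrip L M ⊆ T := by
    unfold dstrip
    exact filter_subset _ _
  have s1 : box 1 (n+1) (-n) (2*n) ⊆ T := box_mono (by omega) (by omega) (by omega) (by omega)
  have s2 : box (-n) (2*n) 1 (n+1) ⊆ T := box_mono (by omega) (by omega) (by omega) (by omega)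
  have eA : piH (-1) (-1) (n + 1) ≤ perc half T (Arm (Rg n) (1, 0) ((n + 1 : ℕ) : ℤ)) := by
    rw [perc_arm (1, 0) ((n + 1 : ℕ) : ℤ) (inter_subset_left.trans sR)]
    apply piH_le_armP
    intro w h1 h2 h3
    rw [abs_le] at h1 h2
    simp only at h1 h2
    rw [mem_Rg, mem_box]
    have h4 : (1:ℝ) ≤ (w.1 : ℝ) + w.2 := by
      simp only [Int.cast_one, Int.cast_zero, sub_zero] at h3
      linarith
    have h5 : (1:ℤ) ≤ w.1 + w.2 := by exact_mod_cast h4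
    push_cast at h1 h2
    omega
  have e1 : perc half T (fun ω => BT 1 (n+1) (-n) (2*n) (ω ∩ edgesIn (box 1 (n+1) (-n) (2*n))))
      = pLR (3 * n) n := by
    rw [perc_restrict s1, perc_BT]; congr 1 <;> ring
  have e2 : perc half T (fun ω => LR (-n) (2*n) 1 (n+1) (ω ∩ edgesIn (box (-n) (2*n) 1 (n+1))))
      = pLR (3 * n) n := by
    rw [perc_restrict s2, perc_LR]; congr 1 <;> ring
  have uA : Up (Arm (Rg n) (1, 0) ((n + 1 : ℕ) : ℤ)) := arm_up _ _ _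
  have u1 : Up (fun ω => BT 1 (n+1) (-n) (2*n) (ω ∩ edgesIn (box 1 (n+1) (-n) (2*n)))) :=
    up_inter (up_BT _ _ _ _) _
  have u2 : Up (fun ω => LR (-n) (2*n) 1 (n+1) (ω ∩ edgesIn (box (-n) (2*n) 1 (n+1)))) :=
    up_inter (up_LR _ _ _ _) _
  have hA1 := perc_harris T uA u1
  have hA12 := perc_harris T (uA.and u1) u2
  rw [e1] at hA1
  rw [e2] at hA12
  have hp0 : 0 ≤ piH (-1) (-1) (n + 1) := piH_nonneg _ _ _
  calc c ^ 2 * piH (-1) (-1) (n + 1)
      = piH (-1) (-1) (n + 1) * c * c := by ring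
    _ ≤ perc half T (Arm (Rg n) (1, 0) ((n + 1 : ℕ) : ℤ)) * pLR (3 * n) n * pLR (3 * n) n := by
        have h0 := perc_half_nonneg T (Arm (Rg n) (1, 0) ((n + 1 : ℕ) : ℤ))
        exact mul_le_mul (mul_le_mul eA hcn hc h0) hcn hc (mul_nonneg h0 (pLR_nonneg _ _))
    _ ≤ _ * pLR (3 * n) n := mul_le_mul_of_nonneg_right hA1 (pLR_nonneg _ _)
    _ ≤ _ := hA12
    _ ≤ perc half T (fun ω => ∃ z : ℤ × ℤ, z.1 + z.2 = L ∧
          Joined (ω ∩ edgesIn (dstrip L M)) (1, 0) z) := by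
        apply perc_half_mono
        rintro ω hω ⟨⟨h1, h2⟩, h3⟩
        exact det_strip hn hM h1 h2 h3
    _ = pStrip L M := by
        rw [pStrip, ← perc_restrict sD]

/-- the strip probability is comparable with the half-plane one-arm probability -/
theorem strip_rsw : ∃ c : ℝ, 0 < c ∧ ∀ n : ℕ, 1 ≤ n → ∀ M : ℤ, 4 * (n:ℤ) + 2 ≤ M →
    c * piH (-1) (-1) (n + 1) ≤ pStrip (2 * n + 1) M ∧
    pStrip (2 * n + 1) M ≤ 2 * piH (-1) (-1) (n + 1) := by
  obtain ⟨c, hc, h⟩ := H47Perc.H46.rsw_pLR 3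
  refine ⟨c ^ 2, by positivity, fun n hn M hM => ⟨?_, ?_⟩⟩
  · exact le_pStrip hn hM hc.le (by exact_mod_cast h n hn)
  · exact pStrip_le n (by omega)

end H47Perc.DS
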